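import Pool.Agent.Lib.MP_f79ffc_lc.U.C.Defs
import Pool.Agent.Lib.MP_f79ffc_lc.U.L.Mor

/-!
New top blocks: a copy of the algebra of a condition, and a copy followed by a Cohen extension.
-/

namespace Pool.Agent.Lib.MP_f79ffc_lc.U

open Pool.Agent.Lib.MP_5d9fac_lc Cardinal

section Gen
variable {J : Type} [Preorder J] {S S' : Sys J}

/-- `S'` is `S` with countably many generic elements adjoined -/
structure Adj (S S' : Sys J) where
  ι : ∀ j, Hm (S.X j) (S'.X j)
  C : ∀ j, S'.X j → Prop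
  comm : ∀ {i j : J} (h : i ≤ j) (x : S.X i), S'.e h (ι i x) = ι j (S.e h x)
  inf : ∀ j a b, C j a → C j b → C j (a ⊓ b)
  e : ∀ {i j : J} (h : i ≤ j) a, C i a → C j (S'.e h a)
  p : ∀ {i j : J} (h : i ≤ j) a, C j a → C i (S'.p h a)
  corr : ∀ {i j : J} (h : i ≤ j) y a, C j a → S'.p h (ι j y ⊓ a) = ι i (S.p h y) ⊓ S'.p h a
  ne : ∀ j x a, C j a → x ≠ ⊥ → a ≠ ⊥ → ι j x ⊓ a ≠ ⊥
  cnt : ∀ j, Countable {a // C j a}
  dense : ∀ j y, y ≠ ⊥ → ∃ x a, C j a ∧ ι j x ⊓ a ≠ ⊥ ∧ ι j x ⊓ a ≤ y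

namespace Adj
variable (A : Adj S S')

theorem val_C : ∀ {j : J} (t : Tm J j) (c : Fam (fun j => {a // A.C j a}) t),
    A.C j (S'.val t (Fam.map (fun _ a => a.1) t c))
  | _, .var _, c => c.2
  | _, .emb t h s, c => A.inf _ _ _ (val_C t c.1) (A.e h _ (val_C s c.2))
  | _, .prj t h s, c => A.inf _ _ _ (val_C t c.1) (A.p h _ (val_C s c.2))

theorem val_eq : ∀ {j : J} (t : Tm J j) (b : S.Asg t) (c : Fam (fun j => {a // A.C j a}) t),
    S'.val t (Fam.map₂ (fun j x a => A.ι j x ⊓ a.1) t b c) =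
      A.ι j (S.val t b) ⊓ S'.val t (Fam.map (fun _ a => a.1) t c)
  | _, .var _, _, _ => rfl
  | _, .emb t h s, b, c => by
    show S'.val t (Fam.map₂ _ t b.1 c.1) ⊓ S'.e h (S'.val s (Fam.map₂ _ s b.2 c.2)) =
      A.ι _ (S.val t b.1 ⊓ S.e h (S.val s b.2)) ⊓
        (S'.val t (Fam.map _ t c.1) ⊓ S'.e h (S'.val s (Fam.map _ s c.2)))
    rw [val_eq t, val_eq s, map_inf, map_inf, A.comm, inf_inf_inf_comm]
  | _, .prj t h s, b, c => by
    show S'.val t (Fam.map₂ _ t b.1 c.1) ⊓ S'.p h (S'.val s (Fam.map₂ _ s b.2 c.2)) =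
      A.ι _ (S.val t b.1 ⊓ S.p h (S.val s b.2)) ⊓
        (S'.val t (Fam.map _ t c.1) ⊓ S'.p h (S'.val s (Fam.map _ s c.2)))
    rw [val_eq t, val_eq s, map_inf, A.corr h _ _ (A.val_C s c.2), inf_inf_inf_comm]

theorem split : ∀ {j : J} (t : Tm J j) (a : S'.Asg t),
    Fam.All (fun j y => ∃ x a, A.C j a ∧ y = A.ι j x ⊓ a) t a →
    ∃ (c : Fam (fun j => {a // A.C j a}) t) (b : S.Asg t),
      a = Fam.map₂ (fun j x a => A.ι j x ⊓ a.1) t b c
  | _, .var _, _, H => by
    obtain ⟨x, a, h, e⟩ := H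
    exact ⟨⟨a, h⟩, x, e⟩
  | _, .emb t _ s, a, H => by
    obtain ⟨c, b, h⟩ := split t a.1 H.1
    obtain ⟨c', b', h'⟩ := split s a.2 H.2
    exact ⟨(c, c'), (b, b'), Prod.ext h h'⟩
  | _, .prj t _ s, a, H => by
    obtain ⟨c, b, h⟩ := split t a.1 H.1
    obtain ⟨c', b', h'⟩ := split s a.2 H.2
    exact ⟨(c, c'), (b, b'), Prod.ext h h'⟩

theorem mono₂ : ∀ {j : J} (t : Tm J j) {b b' : S.Asg t} (c : Fam (fun j => {a // A.C j a}) t),
    S.Le t b b' → S'.Le t (Fam.map₂ (fun j x a => A.ι j x ⊓ a.1) t b c)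
      (Fam.map₂ (fun j x a => A.ι j x ⊓ a.1) t b' c)
  | _, .var j, _, _, _, h => inf_le_inf_right (α := S'.X j) _ (hm_mono (A.ι j) h)
  | _, .emb t _ s, _, _, c, h => ⟨mono₂ t c.1 h.1, mono₂ s c.2 h.2⟩
  | _, .prj t _ s, _, _, c, h => ⟨mono₂ t c.1 h.1, mono₂ s c.2 h.2⟩

include A in
theorem K (hS : S.K) : S'.K := by
  refine Sys.K_of_tm fun ι h1 h2 i t a A₀ h3 h4 => ?_
  have := A.cnt
  have := Fam.countable (Y := fun j => {a // A.C j a}) t
  obtain ⟨c, A₁, h5, h6, h7⟩ := exists_fiber' h1 h2 h3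
    (fun k (c : Fam (fun j => {a // A.C j a}) t) => ∃ b : S.Asg t,
      S'.Le t (Fam.map₂ (fun j x a => A.ι j x ⊓ a.1) t b c) (S'.mem t a k) ∧
      S'.val t (Fam.map₂ (fun j x a => A.ι j x ⊓ a.1) t b c) ≠ ⊥) fun k hk => by
    obtain ⟨a', h5, h6, h7⟩ := Sys.exists_dense
      (fun j y => ∃ x a, A.C j a ∧ y = A.ι j x ⊓ a) t (S'.mem t a k)
      (Fam.all_of (fun j _ y hy _ => by
        obtain ⟨x, a, h, h', h''⟩ := A.dense j y hy
        exact ⟨_, ⟨x, a, h, rfl⟩, h', h''⟩) t _) (h4 k hk)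
    obtain ⟨c, b, rfl⟩ := A.split t a' h6
    exact ⟨c, b, h5, h7⟩
  have h8 : ∀ k, ∃ b : S.Asg t, k ∈ A₁ →
      S'.Le t (Fam.map₂ (fun j x a => A.ι j x ⊓ a.1) t b c) (S'.mem t a k) ∧
      S'.val t (Fam.map₂ (fun j x a => A.ι j x ⊓ a.1) t b c) ≠ ⊥ := fun k => by
    by_cases hk : k ∈ A₁
    · exact (h7 k hk).imp fun _ h _ => h
    · exact ⟨Fam.const (fun _ => ⊤) t, fun h => (hk h).elim⟩
  choose b hb using h8
  have hne : A₁.Nonempty := by
    rw [Set.nonempty_iff_ne_empty]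
    rintro rfl
    rw [← h6] at h2
    simp at h2
  obtain ⟨k0, hk0⟩ := hne
  have h9 : S'.val t (Fam.map (fun _ a => a.1) t c) ≠ ⊥ := by
    have := (hb k0 hk0).2
    rw [A.val_eq] at this
    exact ne_bot_of_le inf_le_right this
  refine (hS.tm h1 h2 t (Fam.pi t b) h6 fun k hk h0 => (hb k hk).2 ?_).mono h5 fun F hF h0 => ?_
  · rw [Sys.mem_pi] at h0
    rw [A.val_eq, h0, map_bot, bot_inf_eq]
  · refine Sys.val_ne_of_le (a := Fam.map₂ (fun j x a => A.ι j x ⊓ a.1) t
      (S.fin t (Fam.pi t b) F) c) (Sys.le_fin t a fun k hk => ?_) ?_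
    · refine (A.mono₂ t c ?_).trans (hb k (hF hk)).1
      have := Sys.fin_le_mem (S := S) t (Fam.pi t b) hk
      rwa [Sys.mem_pi] at this
    · rw [A.val_eq]
      exact A.ne _ _ _ (A.val_C t c) h0 h9

end Adj
end Gen

/-- an extension of `X` by countably many generic elements -/
structure Gx (X : Type) [CompleteBooleanAlgebra X] : Type 1 where
  Y : Type
  inst : CompleteBooleanAlgebra Y
  g : Hm X Y
  inj : Function.Injective g
  C : Set Y
  bot : ⊥ ∈ C
  top : ⊤ ∈ C
  inf : ∀ a ∈ C, ∀ b ∈ C, a ⊓ b ∈ C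
  gen : ∀ a ∈ C, a = ⊥ ∨ pj g a = ⊤
  cnt : C.Countable
  dense : ∀ y, y ≠ ⊥ → ∃ x, ∃ a ∈ C, g x ⊓ a ≠ ⊥ ∧ g x ⊓ a ≤ y
  card : CCC Y → #X ≤ 𝔠 → #Y ≤ 𝔠

attribute [instance] Gx.inst

section
variable {W X : Type} [CompleteBooleanAlgebra W] [CompleteBooleanAlgebra X]

theorem pj_triv {f : Hm W X} (hf : Function.Injective f) {a : X} (ha : a = ⊥ ∨ a = ⊤) :
    pj f a = ⊥ ∨ pj f a = ⊤ := by
  rcases ha with rfl | rfl
  exacts [Or.inl (pj_bot f), Or.inr (pj_top hf)]

theorem map_triv (f : Hm W X) {a : W} (ha : a = ⊥ ∨ a = ⊤) : f a = ⊥ ∨ f a = ⊤ := by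
  rcases ha with rfl | rfl
  exacts [Or.inl (map_bot f), Or.inr (map_top f)]

theorem corr_triv {f : Hm W X} (hf : Function.Injective f) (y : X) {a : X} (ha : a = ⊥ ∨ a = ⊤) :
    pj f (y ⊓ a) = pj f y ⊓ pj f a := by
  rcases ha with rfl | rfl
  · rw [inf_bot_eq, pj_bot, inf_bot_eq]
  · rw [inf_top_eq, pj_top hf, inf_top_eq]

theorem inf_triv {a b : X} (ha : a = ⊥ ∨ a = ⊤) (hb : b = ⊥ ∨ b = ⊤) : a ⊓ b = ⊥ ∨ a ⊓ b = ⊤ := by
  rcases ha with rfl | rfl
  · exact Or.inl (bot_inf_eq b)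
  · rwa [top_inf_eq]

theorem Gx.triv (G : Gx X) {a : G.Y} (ha : a ∈ G.C) : pj G.g a = ⊥ ∨ pj G.g a = ⊤ :=
  (G.gen a ha).imp_left pj_eq_bot.2

theorem Gx.pj_comp (G : Gx X) (f : Hm W X) (y : G.Y) : pj (G.g.comp f) y = pj f (pj G.g y) :=
  (pj_pj (f := f) (g := G.g) (fun _ => rfl) y).symm

theorem Gx.pj_triv (G : Gx X) {f : Hm W X} (hf : Function.Injective f) {a : G.Y}
    (ha : a ∈ G.C) : pj (G.g.comp f) a = ⊥ ∨ pj (G.g.comp f) a = ⊤ := by
  rw [G.pj_comp]
  exact U.pj_triv hf (G.triv ha)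

theorem Gx.corr (G : Gx X) {f : Hm W X} (hf : Function.Injective f) (y : X) {a : G.Y}
    (ha : a ∈ G.C) : pj (G.g.comp f) (G.g y ⊓ a) = pj f y ⊓ pj (G.g.comp f) a := by
  rw [G.pj_comp, G.pj_comp, pj_inf', corr_triv hf y (G.triv ha)]

theorem Gx.map_mem (G : Gx X) (f : Hm W X) {a : W} (ha : a = ⊥ ∨ a = ⊤) :
    G.g.comp f a ∈ G.C := by
  rcases ha with rfl | rfl
  · rw [map_bot]; exact G.bot
  · rw [map_top]; exact G.top

theorem Gx.ne (G : Gx X) {x : X} {a : G.Y} (h : a ∈ G.C) (hx : x ≠ ⊥) (ha : a ≠ ⊥) :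
    G.g x ⊓ a ≠ ⊥ := by
  rwa [inf_comm, inf_map_ne_bot, (G.gen a h).resolve_left ha, top_inf_eq]

theorem pj_id' (z : X) : pj (CompleteLatticeHom.id X) z = z := pj_id (fun _ => rfl) z

end

section Ad
variable {I : Type} [Preorder I] (S : Sys I) (i₀ : I) (G : Gx (S.X i₀))

/-- the algebras of `Sys.ad` -/
@[reducible] def adX : Ad I i₀ → Type
  | some i => S.X i
  | none => G.Y

@[reducible] instance adI : ∀ u, CompleteBooleanAlgebra (adX S i₀ G u)
  | some i => S.inst i
  | none => G.inst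

/-- the arrows of `Sys.ad` -/
def adE : ∀ {u v : Ad I i₀}, u ≤ v → Hm (adX S i₀ G u) (adX S i₀ G v)
  | some _, some _, h => S.e h
  | some _, none, h => G.g.comp (S.e h)
  | none, none, _ => CompleteLatticeHom.id _
  | none, some _, h => h.elim

/-- one more algebra above `i₀` -/
@[reducible] def Sys.ad : Sys (Ad I i₀) where
  X := adX S i₀ G
  inst := adI S i₀ G
  e := adE S i₀ G
  inj {u v} := match u, v with
    | some _, some _ => fun h => S.inj h
    | some _, none => fun h => G.inj.comp (S.inj h)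
    | none, none => fun _ => Function.injective_id
    | none, some _ => fun h => h.elim
  e_refl {u} := match u with
    | some _ => fun h => S.e_refl h
    | none => fun _ _ => rfl
  e_trans {u v w} := match u, v, w with
    | some _, some _, some _ => fun h h' => S.e_trans h h'
    | some _, some _, none => fun h h' x => congrArg G.g (S.e_trans h h' x)
    | some _, none, none => fun _ _ _ => rfl
    | none, none, none => fun _ _ _ => rfl
    | _, none, some _ => fun _ h' => h'.elim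
    | none, some _, _ => fun h => h.elim

/-- the retraction of the index set -/
def Ad.ret : Ad I i₀ → I
  | some i => i
  | none => i₀

theorem Ad.ret_mono : Monotone (Ad.ret i₀) := fun u v => match u, v with
  | some _, some _ => fun h => h
  | some _, none => fun h => h
  | none, none => fun _ => le_rfl
  | none, some _ => fun h => h.elim

/-- the generic elements of `Sys.ad` -/
def adC : ∀ u, adX S i₀ G u → Prop
  | some _, a => a = ⊥ ∨ a = ⊤
  | none, a => a ∈ G.C

/-- the embeddings into `Sys.ad` -/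
def adι : ∀ u, Hm (S.X (Ad.ret i₀ u)) (adX S i₀ G u)
  | some _ => CompleteLatticeHom.id _
  | none => G.g

/-- `Sys.ad` adjoins countably many generic elements -/
def adAdj : Adj (S.comap (Ad.ret i₀) (Ad.ret_mono i₀)) (S.ad i₀ G) where
  ι := adι S i₀ G
  C := adC S i₀ G
  comm {u v} := match u, v with
    | some _, some _ => fun _ _ => rfl
    | some _, none => fun _ _ => rfl
    | none, none => fun _ x => congrArg G.g (S.e_refl le_rfl x).symm
    | none, some _ => fun h => h.elim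
  inf
    | some i => fun _ _ => inf_triv (X := S.X i)
    | none => fun a b ha hb => G.inf a ha b hb
  e {u v} := match u, v with
    | some i, some j => fun h _ ha => map_triv (S.e (i := i) (j := j) h) ha
    | some i, none => fun h _ ha => G.map_mem (S.e (i := i) h) ha
    | none, none => fun _ _ ha => ha
    | none, some _ => fun h => h.elim
  p {u v} := match u, v with
    | some i, some j => fun h _ ha => pj_triv (S.inj (i := i) (j := j) h) ha
    | some i, none => fun h _ ha => G.pj_triv (S.inj (i := i) h) ha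
    | none, none => fun _ a ha => Set.mem_of_eq_of_mem (pj_id' (X := G.Y) a) ha
    | none, some _ => fun h => h.elim
  corr {u v} := match u, v with
    | some i, some j => fun h y _ ha => corr_triv (S.inj (i := i) (j := j) h) y ha
    | some i, none => fun h y _ ha => G.corr (S.inj (i := i) h) y ha
    | none, none => fun _ y a _ => (pj_id' (G.g y ⊓ a)).trans (congrArg₂ (fun z w => G.g z ⊓ w)
        (Sys.p_refl (S := S) le_rfl y).symm (pj_id' (X := G.Y) a).symm)
    | none, some _ => fun h => h.elim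
  ne
    | some i => by
      rintro x a (rfl | rfl) hx ha
      · exact (ha rfl).elim
      · exact fun h => hx ((inf_top_eq (α := S.X i) x).symm.trans h)
    | none => fun _ _ h hx ha => G.ne h hx ha
  cnt
    | some i => ((Set.countable_singleton (⊤ : S.X i)).insert ⊥).to_subtype
    | none => G.cnt.to_subtype
  dense
    | some i => fun y hy => ⟨y, (⊤ : S.X i), Or.inr rfl,
        fun h => hy ((inf_top_eq (α := S.X i) y).symm.trans h), inf_le_left (α := S.X i)⟩
    | none => fun y hy => by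
      obtain ⟨x, a, h⟩ := G.dense y hy
      exact ⟨x, a, h⟩

theorem Sys.K.ad {S : Sys I} (h : S.K) (i₀ : I) (G : Gx (S.X i₀)) : (S.ad i₀ G).K :=
  (adAdj S i₀ G).K (h.comap _ _)

end Ad

theorem exists_inj_Lb {Y : Type} (h : #Y ≤ 𝔠) : ∃ f : Y → Lb, Function.Injective f := by
  obtain ⟨f⟩ := (Cardinal.le_def Y ℝ).1 (h.trans_eq mk_real.symm)
  exact ⟨fun y => {f y}, Set.singleton_injective.comp f.injective⟩

/-- a new top index in the block `γ` -/
noncomputable def Cond.add (q : Cond) (G : Gx q.B) {γ : Mu} (hγ : q.blk q.top ≤ γ) (l : Lb)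
    (hl : ∀ i, q.blk i = γ → q.tag i ≠ l) : Cond where
  I := Ad q.I q.top
  inst := inferInstance
  blk u := Option.elim u γ q.blk
  tag u := Option.elim u l q.tag
  top := none
  key_inj {u v} := match u, v with
    | some _, some _ => fun h h' => congrArg some (q.key_inj h h')
    | some i, none => fun h h' => (hl i h h').elim
    | none, some i => fun h h' => (hl i h.symm h'.symm).elim
    | none, none => fun _ _ => rfl
  le_blk {u v} := match u, v with
    | some _, some _ => fun h => q.le_blk h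
    | some i, none => fun _ => (q.blk_top i).trans hγ
    | none, none => fun _ => le_rfl
    | none, some _ => fun h => h.elim
  blk_top
    | some i => (q.blk_top i).trans hγ
    | none => le_rfl
  lt_iff {u v} := match u, v with
    | some _, some _ => fun h => q.lt_iff h
    | _, none => fun _ => Iff.rfl
    | none, some i => fun h => (((q.blk_top i).trans hγ).not_gt h).elim
  S := q.S.ad q.top G
  K := q.K.ad q.top G
  cardI := (mk_option (α := q.I)).trans_le
    (add_le_of_le aleph0_le_continuum q.cardI (one_le_aleph0.trans aleph0_le_continuum))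
  cardX
    | some i => q.cardX i
    | none => G.card ((q.K.ad q.top G).ccc none) (q.cardX _)
  nm
    | some i => q.nm i
    | none => (exists_inj_Lb (G.card ((q.K.ad q.top G).ccc none) (q.cardX _))).choose
  nm_inj
    | some i => q.nm_inj i
    | none => (exists_inj_Lb (G.card ((q.K.ad q.top G).ccc none) (q.cardX _))).choose_spec

/-- the identity extension -/
noncomputable def Exn.idn (q : Cond) : Exn q q where
  f := id
  mono := monotone_id
  refl h := h
  blk _ := rfl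
  tag _ := rfl
  onto u _ _ := ⟨u, rfl⟩
  cut _ := Iff.rfl
  m := Mor.refl q.S
  nm _ _ := rfl
  keeps h _ := Mor.refl_keeps h

/-- an extension followed by a new top index in a block above the old ones -/
noncomputable def Exn.add {q q' : Cond} (E : Exn q q') (G : Gx q'.B) {γ : Mu}
    (hγ : q'.blk q'.top ≤ γ) (l : Lb) (hl : ∀ i, q'.blk i = γ → q'.tag i ≠ l)
    (h : q.blk q.top < γ) : Exn q (q'.add G hγ l hl) where
  f i := some (E.f i)
  mono := E.mono
  refl := E.refl
  blk := E.blk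
  tag := E.tag
  onto
    | some u => fun i hi => (E.onto u i hi).imp fun _ => congrArg some
    | none => fun i hi => (((q.blk_top i).trans_lt h).ne' hi).elim
  cut := E.cut
  m := E.m
  nm := E.nm
  keeps := E.keeps

/-- the trivial extension -/
def Gx.same (X : Type) [CompleteBooleanAlgebra X] : Gx X where
  Y := X
  inst := inferInstance
  g := CompleteLatticeHom.id X
  inj := Function.injective_id
  C := {⊥, ⊤}
  bot := Or.inl rfl
  top := Or.inr rfl
  inf := by
    rintro a (rfl | rfl) b hb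
    · exact Or.inl (bot_inf_eq b)
    · rwa [top_inf_eq]
  gen := by
    rintro a (rfl | rfl)
    · exact Or.inl rfl
    · exact Or.inr (pj_top Function.injective_id)
  cnt := (Set.countable_singleton _).insert _
  dense y hy := ⟨y, ⊤, Or.inr rfl, fun h => hy ((inf_top_eq y).symm.trans h), inf_le_left⟩
  card _ h := h

theorem Cond.dup (q : Cond) {α : Mu} (hα : q.blk q.top < α) : ∃ (q' : Cond) (E : Exn q q'),
    q'.blk q'.top = α ∧ (∀ u, q'.blk u = α → u = q'.top) ∧ Function.Surjective E.tr := by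
  have hl : ∀ i, q.blk i = α → q.tag i ≠ ∅ := fun i h => (((q.blk_top i).trans_lt hα).ne h).elim
  refine ⟨_, (Exn.idn q).add (Gx.same q.B) hα.le ∅ hl hα, rfl, ?_, fun y => ⟨y, ?_⟩⟩
  · rintro (_ | i) h
    · rfl
    · exact (((q.blk_top i).trans_lt hα).ne h).elim
  · exact q.S.e_refl le_rfl y

/-! ### The Cohen extension -/

theorem mk_RO_le {P : Type} [Preorder P] (h : CCC (RO P)) (hP : #P ≤ 𝔠) : #(RO P) ≤ 𝔠 := by
  have h1 : #(RO P) ≤ #{t : Set P // #t ≤ ℵ₀} :=
    mk_le_of_surjective (f := fun t => ⨆ s : t.1, RO.emb s.1) fun b => by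
      obtain ⟨T, h1, h2⟩ := RO.exists_countable h b
      exact ⟨⟨T, le_aleph0_iff_set_countable.2 h1⟩, h2.symm⟩
  refine h1.trans ((mk_bounded_set_le P ℵ₀).trans ?_)
  rw [← continuum_power_aleph0]
  exact power_le_power_right (max_le hP aleph0_le_continuum)

/-- conditions of the product with Cohen forcing -/
def CP (X T : Type) [CompleteBooleanAlgebra X] : Type := {p : X // p ≠ ⊥} × List T

namespace CP
variable {X T : Type} [CompleteBooleanAlgebra X]

instance : Preorder (CP X T) where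
  le a b := a.1.1 ≤ b.1.1 ∧ b.2 <+: a.2
  le_refl _ := ⟨le_rfl, List.prefix_rfl⟩
  le_trans _ _ _ h h' := ⟨h.1.trans h'.1, h'.2.trans h.2⟩

/-- the projection to the first factor -/
def prj (X T : Type) [CompleteBooleanAlgebra X] : Prj (CP X T) X where
  g m := m.1.1
  ne m := m.1.2
  mono h := h.1
  lift m x hx h := ⟨(⟨x, hx⟩, m.2), ⟨h, List.prefix_rfl⟩, le_rfl⟩

/-- the generic sequence has an initial segment in `W` -/
noncomputable def D (X : Type) [CompleteBooleanAlgebra X] (W : List T → Prop) : RO (CP X T) :=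
  ⨆ m : {m : CP X T // W m.2}, RO.emb m.1

/-- closed under extension -/
def Up (W : List T → Prop) : Prop := ∀ l l', l <+: l' → W l → W l'

theorem le_D {W : List T → Prop} {m : CP X T} (h : W m.2) : RO.emb m ≤ D X W :=
  le_iSup (fun m : {m : CP X T // W m.2} => RO.emb m.1) ⟨m, h⟩

theorem of_le_D {W : List T → Prop} (hW : Up W) {m : CP X T} (h : RO.emb m ≤ D X W) :
    ∃ r, r ≤ m ∧ W r.2 := by
  obtain ⟨m', r, h1, h2⟩ := RO.exists_of_le_iSup h
  obtain ⟨r', h3, h4⟩ := RO.exists_of_emb_le h2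
  exact ⟨r', h3.trans h1, hW _ _ h4.2 m'.2⟩

theorem D_inf {W W' : List T → Prop} (hW : Up W) (hW' : Up W') :
    D X W ⊓ D X W' = D X fun l => W l ∧ W' l := by
  refine le_antisymm (RO.le_of_dense fun m hm => ?_)
    (iSup_le fun m => le_inf (le_D m.2.1) (le_D m.2.2))
  obtain ⟨r, h1, h2⟩ := of_le_D hW (hm.trans inf_le_left)
  obtain ⟨r', h3, h4⟩ := of_le_D hW' ((RO.emb_mono h1).trans (hm.trans inf_le_right))
  exact ⟨r', h3.trans h1, le_D ⟨hW _ _ h3.2 h2, h4⟩⟩

theorem D_bot {W : List T → Prop} (h : ∀ l, ¬ W l) : D X W = ⊥ :=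
  le_bot_iff.1 (iSup_le fun m => (h _ m.2).elim)

theorem up_all (F : List (List T)) : Up fun l => ∀ s ∈ F, s <+: l :=
  fun _ _ h H s hs => (H s hs).trans h

/-- the product with Cohen forcing -/
noncomputable def gx (X T : Type) [CompleteBooleanAlgebra X] [Countable T] : Gx X where
  Y := RO (CP X T)
  inst := inferInstance
  g := (prj X T).hom
  inj := (prj X T).hom_inj fun x hx => ⟨(⟨x, hx⟩, []), le_rfl⟩
  C := insert ⊥ (Set.range fun F : List (List T) => D X fun l => ∀ s ∈ F, s <+: l)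
  bot := Or.inl rfl
  top := Or.inr ⟨[], top_le_iff.1 (RO.le_of_dense fun m _ => ⟨m, le_rfl, le_D (by simp)⟩)⟩
  inf := by
    rintro a (rfl | ⟨F, rfl⟩) b (rfl | ⟨F', rfl⟩)
    · exact Or.inl (bot_inf_eq _)
    · exact Or.inl (bot_inf_eq _)
    · exact Or.inl (inf_bot_eq _)
    · refine Or.inr ⟨F ++ F', ?_⟩
      simp only [D_inf (up_all F) (up_all F'), List.forall_mem_append]
  gen := by
    rintro a (rfl | ⟨F, rfl⟩)
    · exact Or.inl rfl
    · by_cases h : ∃ l, ∀ s ∈ F, s <+: l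
      · obtain ⟨l, hl⟩ := h
        refine Or.inr (top_le_iff.1 (le_of_forall_inf fun x hx _ => ?_))
        have h1 := pj_mono (prj X T).hom (le_D (X := X) (W := fun l => ∀ s ∈ F, s <+: l)
          (m := (⟨x, hx⟩, l)) hl)
        exact ne_bot_of_le (le_inf le_rfl (((prj X T).pj_emb _).ge.trans h1)) hx
      · exact Or.inl (D_bot fun l hl => h ⟨l, hl⟩)
  cnt := (Set.countable_range _).insert _
  dense y hy := by
    obtain ⟨m, hm⟩ := RO.exists_emb_le hy
    refine ⟨m.1.1, _, Or.inr ⟨[m.2], rfl⟩, ne_bot_of_le (le_inf ((prj X T).emb_le.2 le_rfl)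
      (le_D (by simp))) (RO.emb_ne_bot m), le_trans (RO.le_of_dense fun r hr => ?_) hm⟩
    obtain ⟨r', h1, h2⟩ := of_le_D (up_all [m.2]) (hr.trans inf_le_right)
    exact ⟨r', h1, RO.emb_mono ⟨h1.1.trans ((prj X T).emb_le.1 (hr.trans inf_le_left)),
      h2 _ (List.mem_singleton_self _)⟩⟩
  card h hX := mk_RO_le h (by
    refine (mk_prod _ _).trans_le ?_
    rw [lift_id, lift_id]
    exact (mul_le_mul' ((mk_subtype_le _).trans hX) (mk_le_aleph0.trans aleph0_le_continuum)).trans_eq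
      continuum_mul_self)

theorem up_get (k : ℕ) (x : T) : Up fun l => l[k]? = some x := by
  rintro l _ ⟨r, rfl⟩ h
  rw [List.getElem?_append_left (List.getElem?_eq_some_iff.1 h).1]
  exact h

theorem exists_get (l : List T) {k : ℕ} (hk : l.length ≤ k) (x : T) :
    ∃ l', l <+: l' ∧ l'[k]? = some x :=
  ⟨l ++ List.replicate (k + 1) x, List.prefix_append _ _, by
    rw [List.getElem?_append_right hk, List.getElem?_replicate, if_pos (by omega)]⟩

end CP

theorem Cond.coh (q : Cond) {γ : Mu} (hγ : q.blk q.top < γ) (T : Type) [Countable T] [Nonempty T] :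
    ∃ (q' : Cond) (E : Exn q q') (c₀ : q'.I) (_ : E.f q.top ≤ c₀) (h₁ : c₀ ≤ q'.top)
      (c : ℕ → T → q'.B), q'.blk c₀ = γ ∧ q'.blk q'.top = γ ∧ (∀ k, ⨆ x, c k x = ⊤) ∧
      (∀ k x y, x ≠ y → c k x ⊓ c k y = ⊥) ∧
      ∀ p : q'.B, p ≠ ⊥ → ∃ (n : ℕ) (p₀ : q'.S.X c₀), p₀ ≠ ⊥ ∧
        ∀ k, n ≤ k → ∀ x, p₀ ≤ q'.S.p h₁ (p ⊓ c k x) := by
  have hl : ∀ i, q.blk i = γ → q.tag i ≠ ∅ := fun i h => (((q.blk_top i).trans_lt hγ).ne h).elim
  have hl' : ∀ i, (q.add (Gx.same q.B) hγ.le ∅ hl).blk i = γ →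
      (q.add (Gx.same q.B) hγ.le ∅ hl).tag i ≠ Set.univ := by
    rintro (_ | i) h
    · exact Set.empty_ne_univ
    · exact (((q.blk_top i).trans_lt hγ).ne h).elim
  refine ⟨_, ((Exn.idn q).add (Gx.same q.B) hγ.le ∅ hl hγ).add (CP.gx q.B T) le_rfl Set.univ hl' hγ,
    some none, le_refl q.top, trivial, fun k x => CP.D q.B fun l => l[k]? = some x, rfl, rfl,
    fun k => ?_, fun k x y hxy => ?_, fun p hp => ?_⟩
  · refine top_le_iff.1 (RO.le_of_dense (P := CP q.B T) fun m _ => ?_)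
    rcases lt_or_ge k m.2.length with h | h
    · exact ⟨m, le_rfl, le_iSup_of_le m.2[k] (CP.le_D (List.getElem?_eq_getElem h))⟩
    · obtain ⟨x⟩ := ‹Nonempty T›
      obtain ⟨l, h1, h2⟩ := CP.exists_get m.2 h x
      exact ⟨(m.1, l), ⟨le_rfl, h1⟩, le_iSup_of_le x (CP.le_D h2)⟩
  · exact (CP.D_inf (CP.up_get k x) (CP.up_get k y)).trans
      (CP.D_bot fun l h => hxy (Option.some.inj (h.1.symm.trans h.2)))
  · obtain ⟨m, hm⟩ := RO.exists_emb_le (P := CP q.B T) hp
    refine ⟨m.2.length, m.1.1, m.1.2, fun k hk x => ?_⟩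
    obtain ⟨l, h1, h2⟩ := CP.exists_get m.2 hk x
    have h3 := pj_mono (CP.prj q.B T).hom (le_inf ((RO.emb_mono
      (show (show CP q.B T from (m.1, l)) ≤ m from ⟨le_rfl, h1⟩)).trans hm)
      (CP.le_D (W := fun l => l[k]? = some x) h2))
    exact (((CP.prj q.B T).pj_emb _).ge.trans h3).trans_eq (pj_congr (fun _ => rfl) _)

end Pool.Agent.Lib.MP_f79ffc_lc.U
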