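import Pool.Agent.Lib.MP_f79ffc_lc.U.C.Cap
import Pool.Agent.Lib.MP_f79ffc_lc.U.C.New

/-!
All facts on conditions and on the final algebra.
-/
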