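import Pool.Agent.Lib.MP_f79ffc_lc.U.C.Defs
import Pool.Agent.Lib.MP_f79ffc_lc.U.L.Mor

/-!
Extensions of conditions: identity, composition, uniqueness.
-/

namespace Pool.Agent.Lib.MP_f79ffc_lc.U

open Pool.Agent.Lib.MP_5d9fac_lc Cardinal

namespace Exn

variable {q q' q'' : Cond}

/-- the identity -/
noncomputable def rfl' (q : Cond) : Exn q q where
  f := id
  mono := monotone_id
  refl h := h
  blk _ := rfl
  tag _ := rfl
  onto u _ _ := ⟨u, rfl⟩
  cut _ := Iff.rfl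
  m := Mor.refl q.S
  nm _ _ := rfl
  keeps h _ := Mor.refl_keeps h

/-- composition -/
noncomputable def trans (E : Exn q q') (E' : Exn q' q'') : Exn q q'' where
  f i := E'.f (E.f i)
  mono := E'.mono.comp E.mono
  refl h := E.refl (E'.refl h)
  blk i := (E'.blk _).trans (E.blk i)
  tag i := (E'.tag _).trans (E.tag i)
  onto u i h := by
    obtain ⟨j, rfl⟩ := E'.onto u (E.f i) (h.trans (E.blk i).symm)
    obtain ⟨k, rfl⟩ := E.onto j i ((E'.blk j).symm.trans h)
    exact ⟨k, rfl⟩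
  cut i := (E'.cut _).trans (E.cut i)
  m := E.m.comp (E'.m.comap E.f E.mono)
  nm i x := (E'.nm _ _).trans (E.nm i x)
  keeps {i j} h hb := (E.keeps h hb).comp
    (Mor.Keeps.comap (E'.keeps (E.mono h) ((E.blk i).trans (hb.trans (E.blk j).symm))))

theorem trans_f (E : Exn q q') (E' : Exn q' q'') (i : q.I) : (E.trans E').f i = E'.f (E.f i) := rfl

theorem trans_ι (E : Exn q q') (E' : Exn q' q'') (i : q.I) (x : q.S.X i) :
    (E.trans E').m.ι i x = E'.m.ι (E.f i) (E.m.ι i x) := rfl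

theorem f_eq (E E' : Exn q q') (i : q.I) : E.f i = E'.f i :=
  q'.key_inj ((E.blk i).trans (E'.blk i).symm) ((E.tag i).trans (E'.tag i).symm)

theorem f_inj (E : Exn q q') : Function.Injective E.f := fun i j h =>
  q.key_inj (by rw [← E.blk, h, E.blk]) (by rw [← E.tag, h, E.tag])

theorem arr_apply (E : Exn q q') {i : q.I} {u : q'.I} (h : E.f i ≤ u) (x : q.S.X i) :
    E.arr h x = q'.S.e h (E.m.ι i x) := rfl

theorem e_eq_of_nm {r : Cond} {a b u : r.I} (hab : a = b) (h : a ≤ u) (h' : b ≤ u) {x : r.S.X a}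
    {y : r.S.X b} (H : r.nm a x = r.nm b y) : r.S.e h x = r.S.e h' y := by
  subst hab
  rw [r.nm_inj a H]

theorem arr_eq (E E' : Exn q q') {i : q.I} {u : q'.I} (h : E.f i ≤ u) (h' : E'.f i ≤ u)
    (x : q.S.X i) : E.arr h x = E'.arr h' x :=
  e_eq_of_nm (E.f_eq E' i) h h' ((E.nm i x).trans (E'.nm i x).symm)

theorem arr_inj (E : Exn q q') {i : q.I} {u : q'.I} (h : E.f i ≤ u) :
    Function.Injective (E.arr h) := (q'.S.inj h).comp (E.m.inj i)

theorem arr_refl (E : Exn q q') {i : q.I} (h : E.f i ≤ E.f i) (x : q.S.X i) :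
    E.arr h x = E.m.ι i x := q'.S.e_refl h _

theorem nm_arr (E : Exn q q') {i : q.I} {u : q'.I} (h : E.f i = u) (x : q.S.X i) :
    q'.nm u (E.arr h.le x) = q.nm i x := by
  subst h
  rw [arr_refl, E.nm]

theorem e_arr (E : Exn q q') {i : q.I} {u v : q'.I} (h : E.f i ≤ u) (h' : u ≤ v) (x : q.S.X i) :
    q'.S.e h' (E.arr h x) = E.arr (h.trans h') x := q'.S.e_trans h h' _

theorem arr_e (E : Exn q q') {i j : q.I} {u : q'.I} (h : i ≤ j) (h' : E.f j ≤ u) (x : q.S.X i) :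
    E.arr h' (q.S.e h x) = E.arr ((E.mono h).trans h') x :=
  (congrArg (q'.S.e h') (E.m.comm h x).symm).trans (q'.S.e_trans (E.mono h) h' _)

theorem arr_arr (E : Exn q q') (E' : Exn q' q'') (E'' : Exn q q'') {i : q.I} {u : q'.I}
    {v : q''.I} (h : E.f i ≤ u) (h' : E'.f u ≤ v) (h'' : E''.f i ≤ v) (x : q.S.X i) :
    E'.arr h' (E.arr h x) = E''.arr h'' x :=
  (E'.arr_e h h' _).trans (arr_eq (E.trans E') E'' ((E'.mono h).trans h') h'' x)

theorem tr_eq (E E' : Exn q q') (x : q.B) : E.tr x = E'.tr x := arr_eq E E' _ _ x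

theorem tr_inj (E : Exn q q') : Function.Injective E.tr := E.arr_inj _

theorem tr_self (E : Exn q q) (x : q.B) : E.tr x = x :=
  (E.tr_eq (rfl' q) x).trans (q.S.e_refl le_rfl x)

theorem tr_tr (E : Exn q q') (E' : Exn q' q'') (E'' : Exn q q'') (x : q.B) :
    E'.tr (E.tr x) = E''.tr x := arr_arr E E' E'' _ _ _ x

theorem tr_cut (E : Exn q q') {i : q.I} (h : i ≤ q.top) (x : q.S.X i) :
    E.tr (q.S.e h x) = q'.S.e ((E.cut i).2 h) (E.m.ι i x) := E.arr_e h _ x

theorem tr_ne_bot (E : Exn q q') {x : q.B} (h : x ≠ ⊥) : E.tr x ≠ ⊥ := hm_ne_bot E.tr_inj h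

/-- a promise in the last block is kept for ever -/
theorem unb (E : Exn q q') {i : q.I} (h : i ≤ q.top) (hb : q.blk i = q.blk q.top)
    {t : ℕ → ℕ → q.B} (ht : Mat t) (H : Unb (q.S.e h) t) :
    Unb (q'.S.e ((E.cut i).2 h)) fun n k => E.tr (t n k) :=
  Unb.up (k := q'.S.e E.top_le) (fun x => q'.S.e_trans (E.mono h) E.top_le x) (E.keeps h hb t ht H)

/-- an isomorphism that keeps blocks and tags is an extension -/
def ofIso (F : Iso q q') (hb : ∀ i, q'.blk (F.f i) = q.blk i) (ht : ∀ i, q'.tag (F.f i) = q.tag i) :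
    Exn q q' where
  f := F.f
  mono := F.f.monotone
  refl h := F.f.le_iff_le.1 h
  blk := hb
  tag := ht
  onto u _ _ := F.f.surjective u
  cut i := by rw [← F.top, F.f.le_iff_le]
  m := F.m
  nm := F.nm
  keeps h _ := F.keeps h

end Exn

theorem Cond.mk_range_blk (q : Cond) : #(Set.range q.blk) ≤ 𝔠 := mk_range_le.trans q.cardI

theorem Cond.ccc (q : Cond) : CCC q.B := q.K.ccc q.top

theorem Cond.cut_of_le (q : Cond) {i j : q.I} (h : i ≤ j) (hj : j ≤ q.top) : i ≤ q.top :=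
  h.trans hj

theorem Cond.le_of_lt (q : Cond) {i j : q.I} (h : q.blk i < q.blk j) (hi : i ≤ q.top) : i ≤ j :=
  (q.lt_iff h).2 hi

end Pool.Agent.Lib.MP_f79ffc_lc.U
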