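import Pool.Agent.Lib.MP_f79ffc_lc.U.C.Defs
import Pool.Agent.Lib.MP_f79ffc_lc.U.L.Mor

/-!
Types of conditions: a condition is determined up to isomorphism by the names of its indices and
elements, and many conditions have the same type over a root.
-/

namespace Pool.Agent.Lib.MP_f79ffc_lc.U

open Pool.Agent.Lib.MP_5d9fac_lc Cardinal

/-- the type of a condition relative to names `g` of its indices -/
def Cond.code (q : Cond) {G : Type} (g : q.I → G) : G × Set (G × G × Lb × Lb) :=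
  (g q.top, {z | ∃ (i j : q.I) (h : i ≤ j) (x : q.S.X i) (y : q.S.X j),
    q.S.e h x ≤ y ∧ z = (g i, g j, q.nm i x, q.nm j y)})

namespace Typ

variable {q q' : Cond} {G : Type} {g : q.I → G} {g' : q'.I → G}

theorem key (hg' : Function.Injective g') (H : (q.code g).2 ⊆ (q'.code g').2) {i j : q.I}
    (h : i ≤ j) {x : q.S.X i} {y : q.S.X j} (hxy : q.S.e h x ≤ y) {u v : q'.I} (hu : g' u = g i)
    (hv : g' v = g j) {a : q'.S.X u} {b : q'.S.X v} (ha : q'.nm u a = q.nm i x)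
    (hb : q'.nm v b = q.nm j y) : ∃ h' : u ≤ v, q'.S.e h' a ≤ b := by
  obtain ⟨u', v', h', a', b', h1, h2⟩ := H ⟨i, j, h, x, y, hxy, rfl⟩
  simp only [Prod.mk.injEq] at h2
  obtain ⟨e1, e2, e3, e4⟩ := h2
  obtain rfl : u = u' := hg' (hu.trans e1)
  obtain rfl : v = v' := hg' (hv.trans e2)
  obtain rfl : a = a' := q'.nm_inj _ (ha.trans e3)
  obtain rfl : b = b' := q'.nm_inj _ (hb.trans e4)
  exact ⟨h', h1⟩

theorem ex_idx (H : (q.code g).2 ⊆ (q'.code g').2) (i : q.I) : ∃ u, g' u = g i := by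
  obtain ⟨u, v, h', a, b, -, h2⟩ := H ⟨i, i, le_rfl, ⊥, ⊤, le_top, rfl⟩
  simp only [Prod.mk.injEq] at h2
  exact ⟨u, h2.1.symm⟩

theorem ex_elt (hg' : Function.Injective g') (H : (q.code g).2 ⊆ (q'.code g').2) {i : q.I}
    {u : q'.I} (hu : g' u = g i) (x : q.S.X i) : ∃ a : q'.S.X u, q'.nm u a = q.nm i x := by
  obtain ⟨u', v, h', a, b, -, h2⟩ := H ⟨i, i, le_rfl, x, ⊤, le_top, rfl⟩
  simp only [Prod.mk.injEq] at h2
  obtain rfl : u = u' := hg' (hu.trans h2.1)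
  exact ⟨a, h2.2.2.1.symm⟩

theorem mk_code (q : Cond) (g : q.I → G) : #(q.code g).2 ≤ 𝔠 := by
  have h1 : #(Σ i, q.S.X i) ≤ 𝔠 := by
    rw [mk_sigma]
    refine (sum_le_mk_mul_iSup _).trans ?_
    rw [← continuum_mul_self]
    exact mul_le_mul' q.cardI (ciSup_le' q.cardX)
  have h2 : (q.code g).2 ⊆ Set.range fun p : (Σ i, q.S.X i) × (Σ i, q.S.X i) =>
      (g p.1.1, g p.2.1, q.nm _ p.1.2, q.nm _ p.2.2) := by
    rintro _ ⟨i, j, -, x, y, -, rfl⟩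
    exact ⟨(⟨i, x⟩, ⟨j, y⟩), rfl⟩
  refine (mk_le_mk_of_subset h2).trans (mk_range_le.trans ?_)
  rw [mk_prod, lift_id, ← continuum_mul_self]
  exact mul_le_mul' h1 h1

theorem two_pow_mul : (2 : Cardinal.{0}) ^ 𝔠 * 2 ^ 𝔠 = 2 ^ 𝔠 :=
  mul_eq_self (aleph0_le_continuum.trans (cantor 𝔠).le)

theorem mk_prod_le {A B : Type} (hA : #A ≤ 2 ^ 𝔠) (hB : #B ≤ 2 ^ 𝔠) : #(A × B) ≤ 2 ^ 𝔠 := by
  rw [mk_prod, lift_id, lift_id, ← two_pow_mul]
  exact mul_le_mul' hA hB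

theorem mk_small_le {A : Type} (hA : #A ≤ 2 ^ 𝔠) : #{t : Set A // #t ≤ 𝔠} ≤ 2 ^ 𝔠 := by
  refine (mk_bounded_set_le A 𝔠).trans ?_
  have h : max #A ℵ₀ ≤ 2 ^ 𝔠 := max_le hA (aleph0_le_continuum.trans (cantor 𝔠).le)
  refine (power_le_power_right h).trans ?_
  rw [← power_mul, continuum_mul_self]

theorem mk_lb : #Lb ≤ 2 ^ 𝔠 := by rw [mk_set, mk_real]

theorem mk_iio (ρ : Mu) : #(Set.Iio ρ) ≤ 2 ^ 𝔠 :=
  Order.lt_succ_iff.1 (mk_Iio_toType_ord_lt (c := Order.succ (2 ^ 𝔠)) ρ)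

theorem bdd {T : Type} (hT : #T ≤ 2 ^ 𝔠) (η : T → Mu) : ∃ β, ∀ t, η t ≤ β := by
  by_contra hc
  push Not at hc
  have h1 : (Set.univ : Set Mu) ⊆ ⋃ t, Set.Iio (η t) := fun β _ => by
    obtain ⟨t, ht⟩ := hc β
    exact Set.mem_iUnion.2 ⟨t, ht⟩
  have h2 : #(⋃ t, Set.Iio (η t) : Set Mu) ≤ 2 ^ 𝔠 := by
    refine (mk_iUnion_le _).trans ?_
    rw [← two_pow_mul]
    exact mul_le_mul' hT (ciSup_le' fun t => mk_iio _)
  have h3 : #Mu = Order.succ (2 ^ 𝔠) := mk_ord_toType _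
  have h4 := (mk_le_mk_of_subset h1).trans h2
  rw [mk_univ, h3] at h4
  exact absurd (Order.lt_succ _) (not_lt.2 h4)

theorem fiber {T : Type} (hT : #T ≤ 2 ^ 𝔠) (τ : Mu → T) (U : Set Mu)
    (hU : ∀ η, ∃ α ∈ U, η ≤ α) : ∃ U', U' ⊆ U ∧ (∀ η, ∃ α ∈ U', η ≤ α) ∧
      ∀ α ∈ U', ∀ β ∈ U', τ α = τ β := by
  have H : ∃ t, ∀ η, ∃ α ∈ U, τ α = t ∧ η ≤ α := by
    by_contra hc
    push Not at hc
    choose η hη using hc
    obtain ⟨β, hβ⟩ := bdd hT η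
    obtain ⟨α, h1, h2⟩ := hU β
    exact absurd (hη _ α h1 rfl) (not_lt.2 ((hβ _).trans h2))
  obtain ⟨t, ht⟩ := H
  refine ⟨{α | α ∈ U ∧ τ α = t}, fun _ h => h.1, fun η => ?_,
    fun α hα β hβ => hα.2.trans hβ.2.symm⟩
  obtain ⟨α, h1, h2, h3⟩ := ht η
  exact ⟨α, ⟨h1, h2⟩, h3⟩

end Typ

theorem iso_of_code {q q' : Cond} {G : Type} {g : q.I → G} {g' : q'.I → G}
    (hg : Function.Injective g) (hg' : Function.Injective g') (h : q.code g = q'.code g') :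
    ∃ F : Iso q q', ∀ i, g' (F.f i) = g i := by
  have H : (q.code g).2 ⊆ (q'.code g').2 := by rw [h]
  have H' : (q'.code g').2 ⊆ (q.code g).2 := by rw [h]
  choose f hf using Typ.ex_idx H
  choose ι hι using fun i => Typ.ex_elt hg' H (hf i)
  have hs : ∀ i, Function.Surjective (ι i) := fun i a => by
    obtain ⟨x, hx⟩ := Typ.ex_elt hg H' (hf i).symm a
    exact ⟨x, q'.nm_inj _ ((hι i x).trans hx)⟩
  have k1 : ∀ {i j : q.I} (h : i ≤ j) {x : q.S.X i} {y : q.S.X j}, q.S.e h x ≤ y →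
      ∃ h' : f i ≤ f j, q'.S.e h' (ι i x) ≤ ι j y := fun {i j} h {x y} hxy =>
    Typ.key hg' H h hxy (hf i) (hf j) (hι i x) (hι j y)
  have k2 : ∀ {i j : q.I} (h : f i ≤ f j) {x : q.S.X i} {y : q.S.X j},
      q'.S.e h (ι i x) ≤ ι j y → ∃ h' : i ≤ j, q.S.e h' x ≤ y := fun {i j} h {x y} hxy =>
    Typ.key hg H' h hxy (hf i).symm (hf j).symm (hι i x).symm (hι j y).symm
  have hle : ∀ i j, f i ≤ f j ↔ i ≤ j := fun i j => by
    refine ⟨fun h => ?_, fun h => (k1 h (x := ⊥) (y := ⊤) le_top).1⟩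
    obtain ⟨y, hy⟩ := hs j ⊤
    exact (k2 h (x := ⊥) (y := y) (hy ▸ le_top)).1
  have hb : Function.Bijective f := by
    refine ⟨fun i j e => hg (by rw [← hf, ← hf, e]), fun u => ?_⟩
    obtain ⟨i, hi⟩ := Typ.ex_idx H' u
    exact ⟨i, hg' ((hf i).trans hi)⟩
  have hxy : ∀ i (x y : q.S.X i), ι i x ≤ ι i y ↔ x ≤ y := fun i x y => by
    constructor
    · intro h
      obtain ⟨h', h1⟩ := k2 (le_refl (f i)) (x := x) (y := y) (by rwa [q'.S.e_refl])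
      rwa [q.S.e_refl] at h1
    · intro h
      obtain ⟨h', h1⟩ := k1 (le_refl i) (x := x) (y := y) (by rwa [q.S.e_refl])
      rwa [q'.S.e_refl] at h1
  have hbi : ∀ i, Function.Bijective (ι i) := fun i =>
    ⟨fun x y e => le_antisymm ((hxy i x y).1 e.le) ((hxy i y x).1 e.ge), hs i⟩
  let F : q.I ≃o q'.I := ⟨Equiv.ofBijective f hb, fun {i j} => hle i j⟩
  let o : ∀ i, q.S.X i ≃o q'.S.X (f i) := fun i =>
    ⟨Equiv.ofBijective (ι i) (hbi i), fun {x y} => hxy i x y⟩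
  let m : Mor q.S (q'.S.comap F F.monotone) :=
    Mor.ofBij (fun i => (o i : CompleteLatticeHom (q.S.X i) (q'.S.X (f i)))) hbi
      fun {i j} h x => by
        refine le_antisymm (k1 h (x := x) le_rfl).2 ?_
        obtain ⟨y, hy⟩ := hs j (q'.S.e ((hle i j).2 h) (ι i x))
        exact ((hxy j _ _).2 (k2 ((hle i j).2 h) hy.ge).2).trans hy.le
  exact ⟨⟨F, hg' ((hf _).trans (congrArg Prod.fst h)), m, hs, hι,
    fun {i j} h => m.keeps_of_surj h (hs j)⟩, hf⟩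

/-- many conditions have the same type over a root -/
theorem exists_type (q : Mu → Cond) (d : ∀ α, (q α).I) {T : Type} (hT : #T ≤ 2 ^ 𝔠) (ex : Mu → T)
    (ρ : Mu) (U : Set Mu) (hU : ∀ η, ∃ α ∈ U, η ≤ α)
    (hρ : ∀ α ∈ U, ∀ i, (q α).blk i < α → (q α).blk i < ρ) :
    ∃ U', U' ⊆ U ∧ (∀ η, ∃ α ∈ U', η ≤ α) ∧ ∀ α ∈ U', ∀ β ∈ U', ex α = ex β ∧
      ∃ F : Iso (q α) (q β), F.f (d α) = d β ∧ (∀ i, (q β).blk (F.f i) < β ↔ (q α).blk i < α) ∧
        ∀ i, (q α).blk i < α →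
          (q β).blk (F.f i) = (q α).blk i ∧ (q β).tag (F.f i) = (q α).tag i := by
  classical
  have hν : ∀ α, ∃ ν : (q α).I → ℝ, Function.Injective ν := fun α => by
    obtain ⟨e⟩ := (Cardinal.le_def _ _).1 ((q α).cardI.trans mk_real.ge)
    exact ⟨e, e.injective⟩
  choose ν hν using hν
  let G : Type := (Set.Iio ρ × Lb) ⊕ ℝ
  have hG : #G ≤ 2 ^ 𝔠 := by
    have h1 := Typ.mk_prod_le (Typ.mk_iio ρ) Typ.mk_lb
    rw [mk_sum, lift_id, lift_id, mk_real]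
    exact (add_le_add h1 (cantor 𝔠).le).trans
      (add_eq_self (aleph0_le_continuum.trans (cantor 𝔠).le)).le
  let g : ∀ α, (q α).I → G := fun α i =>
    if h : (q α).blk i < α ∧ (q α).blk i < ρ then .inl (⟨_, h.2⟩, (q α).tag i) else .inr (ν α i)
  have hg : ∀ α, Function.Injective (g α) := fun α i j e => by
    simp only [g] at e
    split_ifs at e with h1 h2
    · simp only [G, Sum.inl.injEq, Prod.mk.injEq, Subtype.mk.injEq] at e
      exact (q α).key_inj e.1 e.2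
    · exact hν α (Sum.inr_injective e)
  have k : ∀ α ∈ U, ∀ β (i : (q α).I) (j : (q β).I), g β j = g α i → (q α).blk i < α →
      (q β).blk j < β ∧ (q β).blk j = (q α).blk i ∧ (q β).tag j = (q α).tag i := by
    intro α hα β i j e hi
    simp only [g] at e
    rw [dif_pos (⟨hi, hρ α hα i hi⟩ : (q α).blk i < α ∧ (q α).blk i < ρ)] at e
    split_ifs at e with h1
    simp only [G, Sum.inl.injEq, Prod.mk.injEq, Subtype.mk.injEq] at e
    exact ⟨h1.1, e⟩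
  obtain ⟨U', hU1, hU2, hU3⟩ := Typ.fiber
    (Typ.mk_prod_le hT (Typ.mk_prod_le hG (Typ.mk_prod_le hG (Typ.mk_small_le
      (Typ.mk_prod_le hG (Typ.mk_prod_le hG (Typ.mk_prod_le Typ.mk_lb Typ.mk_lb)))))))
    (fun α => (ex α, g α (d α), ((q α).code (g α)).1, ⟨((q α).code (g α)).2, Typ.mk_code _ _⟩)) U hU
  refine ⟨U', hU1, hU2, fun α hα β hβ => ?_⟩
  have e := hU3 α hα β hβ
  simp only [Prod.mk.injEq, Subtype.mk.injEq] at e
  obtain ⟨F, hF⟩ := iso_of_code (hg α) (hg β) (Prod.ext e.2.2.1 e.2.2.2)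
  refine ⟨e.1, F, hg β ((hF _).trans e.2.1), fun i => ⟨fun h => ?_, fun h => ?_⟩, fun i h => ?_⟩
  · exact (k β (hU1 hβ) α _ _ (hF i).symm h).1
  · exact (k α (hU1 hα) β _ _ (hF i) h).1
  · exact (k α (hU1 hα) β _ _ (hF i) h).2

end Pool.Agent.Lib.MP_f79ffc_lc.U
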