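import Pool.Agent.Lib.MP_f79ffc_lc.U.C.Mu
import Pool.Agent.Lib.MP_f79ffc_lc.U.C.Exn
import Pool.Agent.Lib.MP_f79ffc_lc.U.C.Typ
import Pool.Agent.Lib.MP_f79ffc_lc.U.M.BDefs

/-!
The final algebra and the maps from the algebras of the conditions into it.
-/

namespace Pool.Agent.Lib.MP_f79ffc_lc.U

open Pool.Agent.Lib.MP_5d9fac_lc Cardinal

/-- block and tag of an index -/
def Cond.key (q : Cond) (i : q.I) : Mu × Lb := (q.blk i, q.tag i)

theorem Cond.key_injective (q : Cond) : Function.Injective q.key := fun _ _ h =>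
  q.key_inj (congrArg Prod.fst h) (congrArg Prod.snd h)

/-- codes of conditions -/
def Cd : Type :=
  {c : (Mu × Lb) × Set ((Mu × Lb) × (Mu × Lb) × Lb × Lb) // ∃ q : Cond, q.code q.key = c}

/-- a condition with a given code -/
noncomputable def Cd.rep (c : Cd) : Cond := c.2.choose

theorem exists_rep (q : Cond) : ∃ c : Cd, Nonempty (Exn q c.rep) := by
  let c : Cd := ⟨q.code q.key, q, rfl⟩
  obtain ⟨F, hF⟩ := iso_of_code q.key_injective c.rep.key_injective c.2.choose_spec.symm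
  exact ⟨c, ⟨Exn.ofIso F (fun i => congrArg Prod.fst (hF i)) fun i => congrArg Prod.snd (hF i)⟩⟩

/-- pairs of a condition and a nonzero element of its algebra -/
structure Pn : Type where
  c : Cd
  p : c.rep.B
  ne : p ≠ ⊥

/-- the pair `r` lies below `(q, p)` -/
def Pn.Bl (r : Pn) (q : Cond) (p : q.B) : Prop := ∃ E : Exn q r.c.rep, r.p ≤ E.tr p

theorem Pn.Bl.trans {r : Pn} {q q' : Cond} {p : q.B} {p' : q'.B} (h : r.Bl q' p') (E : Exn q q')
    (H : p' ≤ E.tr p) : r.Bl q p := by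
  obtain ⟨E', h'⟩ := h
  exact ⟨E.trans E', h'.trans ((hm_mono E'.tr H).trans (E.tr_tr E' _ p).le)⟩

instance : Preorder Pn where
  le r r' := r.Bl r'.c.rep r'.p
  le_refl r := ⟨Exn.rfl' _, (Exn.tr_self _ _).ge⟩
  le_trans _ _ _ h h' := by
    obtain ⟨E, H⟩ := h'
    exact h.trans E H

theorem Pn.Bl.of_le {r r' : Pn} {q : Cond} {p : q.B} (h : r' ≤ r) (H : r.Bl q p) : r'.Bl q p := by
  obtain ⟨E, H⟩ := H
  exact Pn.Bl.trans h E H

theorem Pn.exists_bl {q : Cond} {p : q.B} (hp : p ≠ ⊥) : ∃ r : Pn, r.Bl q p := by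
  obtain ⟨c, ⟨E⟩⟩ := exists_rep q
  exact ⟨⟨c, E.tr p, E.tr_ne_bot hp⟩, E, le_rfl⟩

/-- the final algebra -/
def BB : Type := RO Pn

noncomputable instance : CompleteBooleanAlgebra BB :=
  inferInstanceAs (CompleteBooleanAlgebra (RO Pn))

/-- the element given by a pair -/
noncomputable def Pn.em (r : Pn) : BB := RO.emb r

/-- the element of the final algebra given by `p` in the algebra of `q` -/
noncomputable def jq (q : Cond) (p : q.B) : BB := ⨆ r : {r : Pn // r.Bl q p}, r.1.em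

theorem Pn.em_le {r : Pn} {q : Cond} {p : q.B} (h : r.Bl q p) : r.em ≤ jq q p :=
  le_iSup (fun r : {r : Pn // r.Bl q p} => r.1.em) ⟨r, h⟩

theorem Pn.exists_of_le {r : Pn} {q : Cond} {p : q.B} (h : r.em ≤ jq q p) :
    ∃ r', r' ≤ r ∧ r'.Bl q p := by
  obtain ⟨i, r₁, h1, h2⟩ := RO.exists_of_le_iSup (P := Pn) h
  obtain ⟨r₂, h3, h4⟩ := RO.exists_of_emb_le h2
  exact ⟨r₂, h3.trans h1, Pn.Bl.of_le h4 i.2⟩

theorem Pn.jq_eq (r : Pn) : jq r.c.rep r.p = r.em :=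
  le_antisymm (iSup_le fun r' => RO.emb_mono (P := Pn) r'.2) (Pn.em_le (le_refl r))

theorem BB.le_of {a b : BB} (h : ∀ r : Pn, r.em ≤ a → ∃ r', r' ≤ r ∧ r'.em ≤ b) : a ≤ b :=
  RO.le_of_dense (P := Pn) h

section
variable {q q' : Cond}

theorem jq_tr_le (E : Exn q q') {a : q.B} {b : q'.B} (h : b ≤ E.tr a) : jq q' b ≤ jq q a :=
  iSup_le fun r => Pn.em_le (r.2.trans E h)

theorem jq_mono {a b : q.B} (h : a ≤ b) : jq q a ≤ jq q b :=
  jq_tr_le (Exn.rfl' q) (h.trans (Exn.tr_self _ _).ge)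

theorem jq_bot : jq q ⊥ = ⊥ := by
  refine le_bot_iff.1 (iSup_le fun r => ?_)
  obtain ⟨E, h⟩ := r.2
  rw [map_bot, le_bot_iff] at h
  exact (r.1.ne h).elim

theorem jq_eq_bot {a : q.B} : jq q a = ⊥ ↔ a = ⊥ := by
  refine ⟨fun h => ?_, fun h => by rw [h, jq_bot]⟩
  by_contra ha
  obtain ⟨r, hr⟩ := Pn.exists_bl ha
  exact RO.emb_ne_bot r (le_bot_iff.1 ((Pn.em_le hr).trans h.le))

theorem jq_ne_bot {a : q.B} : jq q a ≠ ⊥ ↔ a ≠ ⊥ := jq_eq_bot.not

theorem jq_inf (a b : q.B) : jq q (a ⊓ b) = jq q a ⊓ jq q b := by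
  refine le_antisymm (le_inf (jq_mono inf_le_left) (jq_mono inf_le_right)) (BB.le_of fun r hr => ?_)
  obtain ⟨r₁, h1, h2⟩ := Pn.exists_of_le (hr.trans inf_le_left)
  obtain ⟨r₂, h3, E, h4⟩ := Pn.exists_of_le ((RO.emb_mono h1).trans (hr.trans inf_le_right))
  obtain ⟨E', h5⟩ := Pn.Bl.of_le h3 h2
  refine ⟨r₂, h3.trans h1, Pn.em_le ⟨E, ?_⟩⟩
  rw [map_inf]
  exact le_inf (h5.trans (E'.tr_eq E a).le) h4

theorem jq_iSup {ι : Sort*} (a : ι → q.B) : jq q (⨆ k, a k) = ⨆ k, jq q (a k) := by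
  refine le_antisymm (BB.le_of fun r hr => ?_) (iSup_le fun k => jq_mono (le_iSup a k))
  obtain ⟨r₁, h1, E, h2⟩ := Pn.exists_of_le hr
  rw [map_iSup] at h2
  obtain ⟨k, hk⟩ := exists_inf_ne_bot_of_le r₁.ne h2
  have h3 : (⟨r₁.c, r₁.p ⊓ E.tr (a k), hk⟩ : Pn) ≤ r₁ :=
    ⟨Exn.rfl' _, inf_le_left.trans (Exn.tr_self _ _).ge⟩
  exact ⟨_, h3.trans h1, le_iSup_of_le k (Pn.em_le ⟨E, inf_le_right⟩)⟩

theorem jq_sSup (s : Set q.B) : jq q (sSup s) = ⨆ x ∈ s, jq q x := by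
  rw [sSup_eq_iSup, jq_iSup]
  simp only [jq_iSup]

theorem jq_sup (a b : q.B) : jq q (a ⊔ b) = jq q a ⊔ jq q b := by
  rw [← sSup_pair, jq_sSup, iSup_pair]

theorem jq_le_top (a : q.B) : jq q a ≤ jq q ⊤ := jq_mono le_top

theorem jq_top_inf (a : q.B) : jq q ⊤ ⊓ jq q a = jq q a := inf_eq_right.2 (jq_le_top a)

/-- the map as a homomorphism into the relative algebra -/
noncomputable def jh (q : Cond) : Hm q.B (RS.below (jq q ⊤)).T :=
  RS.lift (jq q) jq_le_top jq_sSup jq_inf rfl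

theorem jh_val (a : q.B) : (jh q a).1 = jq q a := rfl

theorem jh_inj : Function.Injective (jh q) :=
  hm_inj_iff.2 fun _ h => jq_eq_bot.1 (congrArg Subtype.val h)

theorem jq_le_iff {a b : q.B} : jq q a ≤ jq q b ↔ a ≤ b := hm_le_iff jh_inj

theorem jq_injective : Function.Injective (jq q) := fun _ _ h =>
  le_antisymm (jq_le_iff.1 h.le) (jq_le_iff.1 h.ge)

theorem jq_iInf {ι : Sort*} (a : ι → q.B) : jq q (⨅ k, a k) = jq q ⊤ ⊓ ⨅ k, jq q (a k) :=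
  (congrArg Subtype.val (map_iInf (jh q) a)).trans (RS.val_iInf _)

theorem jq_compl (a : q.B) : jq q aᶜ = jq q ⊤ ⊓ (jq q a)ᶜ :=
  congrArg Subtype.val (hm_compl (jh q) a)

theorem jq_finset_inf {ι : Type} (F : Finset ι) (a : ι → q.B) :
    jq q (F.inf a) = jq q ⊤ ⊓ F.inf fun k => jq q (a k) := by
  classical
  induction F using Finset.induction_on with
  | empty => simp
  | insert k F _ ih => rw [Finset.inf_insert, Finset.inf_insert, jq_inf, ih, inf_left_comm]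

theorem jq_tr (E : Exn q q') (a : q.B) : jq q' (E.tr a) = jq q' ⊤ ⊓ jq q a := by
  refine le_antisymm (le_inf (jq_le_top _) (jq_tr_le E le_rfl)) (BB.le_of fun r hr => ?_)
  obtain ⟨r₁, h1, h2⟩ := Pn.exists_of_le (hr.trans inf_le_right)
  obtain ⟨r₂, h3, E', -⟩ := Pn.exists_of_le ((RO.emb_mono h1).trans (hr.trans inf_le_left))
  obtain ⟨E'', h5⟩ := Pn.Bl.of_le h3 h2
  exact ⟨r₂, h3.trans h1, Pn.em_le ⟨E', h5.trans (E.tr_tr E' E'' a).ge⟩⟩

theorem top_inf_iInf {ι : Sort*} (d : BB) (a : ι → BB) : d ⊓ ⨅ k, d ⊓ a k = d ⊓ ⨅ k, a k :=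
  le_antisymm (inf_le_inf_left _ (iInf_mono fun _ => inf_le_right))
    (le_inf inf_le_left (le_iInf fun k => inf_le_inf_left _ (iInf_le _ k)))

theorem jq_lit (c : Bool) (a : q.B) : jq q (lit c a) = jq q ⊤ ⊓ lit c (jq q a) := by
  cases c
  · exact jq_compl a
  · exact (jq_top_inf a).symm

theorem jq_himp (a b : q.B) : jq q (a ⇨ b) = jq q ⊤ ⊓ (jq q a ⇨ jq q b) := by
  rw [himp_eq, himp_eq, jq_sup, jq_compl, inf_sup_left, jq_top_inf]

theorem jq_inC (x : ℕ → q.B) (s : List Bool) :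
    jq q (inC x s) = jq q ⊤ ⊓ inC (fun n => jq q (x n)) s := by
  simp only [inC, jq_iInf, jq_lit, top_inf_iInf]

theorem jq_eqv (x y : ℕ → q.B) :
    jq q (eqv x y) = jq q ⊤ ⊓ eqv (fun n => jq q (x n)) fun n => jq q (y n) := by
  simp only [eqv, jq_iInf, jq_inf, jq_himp, ← inf_inf_distrib_left, top_inf_iInf]

theorem jq_cov (w : List Bool × ℚ → q.B) (x : ℕ → q.B) :
    jq q (cov w x) = cov (fun t => jq q (w t)) fun n => jq q (x n) := by
  simp only [cov, jq_iSup, jq_inf, jq_inC]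
  refine iSup_congr fun t => ?_
  rw [← inf_assoc, inf_eq_left.2 (jq_le_top _)]

theorem jq_covL (w : List Bool → q.B) (x : ℕ → q.B) :
    jq q (covL w x) = covL (fun t => jq q (w t)) fun n => jq q (x n) := by
  simp only [covL, jq_iSup, jq_inf, jq_inC]
  refine iSup_congr fun t => ?_
  rw [← inf_assoc, inf_eq_left.2 (jq_le_top _)]

theorem jq_limC (C : ℕ → Finset (List Bool)) (x : ℕ → q.B) :
    jq q (limC C x) = jq q ⊤ ⊓ limC C fun n => jq q (x n) := by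
  simp only [limC, jq_iInf, jq_iSup, jq_inC, ← inf_iSup_eq, top_inf_iInf]

end

theorem exists_jq_le {b : BB} (hb : b ≠ ⊥) : ∃ (q : Cond) (p : q.B), p ≠ ⊥ ∧ jq q p ≤ b := by
  obtain ⟨r, hr⟩ := RO.exists_emb_le (P := Pn) hb
  exact ⟨r.c.rep, r.p, r.ne, r.jq_eq.le.trans hr⟩

theorem exists_ext_le {q : Cond} {p : q.B} {b : BB} (h : jq q p ⊓ b ≠ ⊥) :
    ∃ (q' : Cond) (E : Exn q q') (p' : q'.B), p' ≠ ⊥ ∧ p' ≤ E.tr p ∧ jq q' p' ≤ b := by
  obtain ⟨r, hr⟩ := RO.exists_emb_le (P := Pn) h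
  obtain ⟨r₁, h1, E, h2⟩ := Pn.exists_of_le (hr.trans inf_le_left)
  exact ⟨r₁.c.rep, E, r₁.p, r₁.ne, h2,
    r₁.jq_eq.le.trans ((RO.emb_mono h1).trans (hr.trans inf_le_right))⟩

theorem exists_common {q₁ q₂ : Cond} {p₁ : q₁.B} {p₂ : q₂.B} {b : BB}
    (h : jq q₁ p₁ ⊓ jq q₂ p₂ ⊓ b ≠ ⊥) : ∃ (q' : Cond) (E₁ : Exn q₁ q') (E₂ : Exn q₂ q') (p' : q'.B),
      p' ≠ ⊥ ∧ p' ≤ E₁.tr p₁ ∧ p' ≤ E₂.tr p₂ ∧ jq q' p' ≤ b := by
  obtain ⟨r, hr⟩ := RO.exists_emb_le (P := Pn) h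
  obtain ⟨r₁, h1, h2⟩ := Pn.exists_of_le (hr.trans (inf_le_left.trans inf_le_left))
  obtain ⟨r₂, h3, E₂, h4⟩ := Pn.exists_of_le
    ((RO.emb_mono h1).trans (hr.trans (inf_le_left.trans inf_le_right)))
  obtain ⟨E₁, h5⟩ := Pn.Bl.of_le h3 h2
  exact ⟨r₂.c.rep, E₁, E₂, r₂.p, r₂.ne, h5, h4,
    r₂.jq_eq.le.trans ((RO.emb_mono (h3.trans h1)).trans (hr.trans inf_le_right))⟩

/-- the system with one trivial algebra -/
noncomputable def Sys.triv : Sys Unit where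
  X _ := Prop
  inst _ := inferInstance
  e _ := CompleteLatticeHom.id _
  inj _ := Function.injective_id
  e_refl _ _ := rfl
  e_trans _ _ _ := rfl

theorem Sys.triv_K : Sys.triv.K := by
  intro ι _ _ i Φ hΦ A₀ hA h ε hε
  have key : ∀ F : Finset ι, (∀ k ∈ F, Φ {k} ≠ ⊥) → Φ F ≠ ⊥ := by
    clear h
    have h0 : ∀ {i : Unit} {x y : Sys.triv.X i}, x ≠ ⊥ → y ≠ ⊥ → x ⊓ y ≠ ⊥ := by
      intro i x y hx hy
      have h1 : x = ⊤ := (eq_bot_or_eq_top (α := Prop) x).resolve_left hx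
      rwa [h1, top_inf_eq]
    induction hΦ with
    | var i p =>
      intro F hF
      have h1 : F.inf p = ⊤ := by
        refine (Finset.inf_eq_top_iff _ _).2 fun k hk => ?_
        have h2 : ({k} : Finset ι).inf p ≠ ⊥ := hF k hk
        rw [Finset.inf_singleton] at h2
        exact (eq_bot_or_eq_top (α := Prop) (p k)).resolve_left h2
      show F.inf p ≠ ⊥
      rw [h1]
      exact top_ne_bot (α := Prop)
    | emb h _ _ ih1 ih2 =>
      intro F hF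
      exact h0 (ih1 F fun k hk => ne_bot_of_le inf_le_left (hF k hk))
        (ih2 F fun k hk => ne_bot_of_le inf_le_right (hF k hk))
    | prj h _ _ ih1 ih2 =>
      intro F hF
      exact h0 (ih1 F fun k hk => ne_bot_of_le inf_le_left (hF k hk))
        (pj_ne_bot.2 (ih2 F fun k hk => pj_ne_bot.1 (ne_bot_of_le inf_le_right (hF k hk))))
  refine ⟨A₀, le_rfl, hA, fun F hF => ⟨F, le_rfl, ?_, key F fun k hk => h k (hF hk)⟩⟩
  have : (0 : ℝ) ≤ F.card := Nat.cast_nonneg _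
  nlinarith

/-- the trivial condition -/
noncomputable def Cond.base : Cond where
  I := Unit
  inst := inferInstance
  blk _ := Classical.arbitrary Mu
  tag _ := ∅
  top := ()
  key_inj _ _ := rfl
  le_blk _ := le_rfl
  blk_top _ := le_rfl
  lt_iff h := (lt_irrefl _ h).elim
  S := Sys.triv
  K := Sys.triv_K
  cardI := mk_le_aleph0.trans aleph0_le_continuum
  cardX _ := (mk_le_aleph0 (α := Prop)).trans aleph0_le_continuum
  nm _ p := {_x | (p : Prop)}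
  nm_inj _ _ _ h := propext (Set.ext_iff.1 h 0)

theorem BB_ne : (⊤ : BB) ≠ ⊥ :=
  ne_bot_of_le le_top ((jq_ne_bot (q := Cond.base) (a := ⊤)).2 (top_ne_bot (α := Prop)))

end Pool.Agent.Lib.MP_f79ffc_lc.U
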