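import Pool.Agent.Lib.MP_f79ffc_lc.U.C.Defs

/-!
Counting facts for the blocks and the names: boundedness, closure points, pressing down.
-/

namespace Pool.Agent.Lib.MP_f79ffc_lc.U

open Pool.Agent.Lib.MP_5d9fac_lc Cardinal

theorem mk_Lb : #Lb = 2 ^ 𝔠 := by
  rw [Cardinal.mk_set, Cardinal.mk_real]

theorem mk_Iio_succ_le {κ : Cardinal.{0}} (w : (Order.succ κ).ord.ToType) :
    #(Set.Iio w) ≤ κ :=
  Order.lt_succ_iff.1 ((Cardinal.mk_Iio_lt w (by simp)).trans_eq (Cardinal.mk_ord_toType _))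

/-- small sets are bounded in the order type of a successor cardinal -/
theorem exists_gt_succ {κ : Cardinal.{0}} (hκ : ℵ₀ ≤ κ) (s : Set (Order.succ κ).ord.ToType)
    (hs : #s ≤ κ) : ∃ α, ∀ β ∈ s, β < α := by
  by_contra hc
  push Not at hc
  have h1 : (Set.univ : Set (Order.succ κ).ord.ToType) ⊆ s ∪ ⋃ β : s, Set.Iio β.1 := by
    intro α _
    obtain ⟨β, hβ, hle⟩ := hc α
    rcases hle.lt_or_eq with h | h
    · exact Or.inr (Set.mem_iUnion.2 ⟨⟨β, hβ⟩, h⟩)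
    · exact Or.inl (h ▸ hβ)
  have h2 : #(⋃ β : s, Set.Iio β.1) ≤ κ := by
    refine (Cardinal.mk_iUnion_le_sum_mk).trans ?_
    refine (Cardinal.sum_le_sum _ (fun _ => κ) fun β : s => mk_Iio_succ_le β.1).trans ?_
    rw [Cardinal.sum_const']
    exact (mul_le_mul_left hs κ).trans (Cardinal.mul_eq_self hκ).le
  have h3 := (Cardinal.mk_le_mk_of_subset h1).trans
    ((Cardinal.mk_union_le _ _).trans (Cardinal.add_le_of_le hκ hs h2))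
  rw [Cardinal.mk_univ, Cardinal.mk_ord_toType] at h3
  exact absurd h3 (not_le.2 (Order.lt_succ κ))

theorem c_le_pow : (𝔠 : Cardinal.{0}) ≤ 2 ^ 𝔠 := (Cardinal.cantor _).le

theorem aleph0_le_pow : (ℵ₀ : Cardinal.{0}) ≤ 2 ^ 𝔠 := aleph0_le_continuum.trans c_le_pow

theorem Mu.exists_gt (s : Set Mu) (hs : #s ≤ 2 ^ 𝔠) : ∃ α, ∀ β ∈ s, β < α :=
  exists_gt_succ aleph0_le_pow s hs

instance : Nonempty Mu :=
  ⟨(Mu.exists_gt ∅ (by simp)).choose⟩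

theorem Mu.exists_gt' {ι : Type} (hι : #ι ≤ 𝔠) (f : ι → Mu) : ∃ α, ∀ k, f k < α := by
  obtain ⟨α, hα⟩ := Mu.exists_gt (Set.range f) (Cardinal.mk_range_le.trans (hι.trans c_le_pow))
  exact ⟨α, fun k => hα _ ⟨k, rfl⟩⟩

theorem Mu.mk_Iio (α : Mu) : #(Set.Iio α) ≤ 2 ^ 𝔠 := mk_Iio_succ_le α

theorem Mu.exists_gt_insert (s : Set Mu) (hs : #s ≤ 2 ^ 𝔠) (x : Mu) :
    ∃ α, x < α ∧ ∀ β ∈ s, β < α := by
  obtain ⟨α, hα⟩ := Mu.exists_gt (insert x s) (Cardinal.mk_insert_le.trans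
    (Cardinal.add_le_of_le aleph0_le_pow hs (one_le_aleph0.trans aleph0_le_pow)))
  exact ⟨α, hα _ (Set.mem_insert _ _), fun β hβ => hα _ (Set.mem_insert_of_mem _ hβ)⟩

theorem Mu.exists_rec {W : Type} [LinearOrder W] [WellFoundedLT W]
    (hW : ∀ w : W, #(Set.Iio w) ≤ 2 ^ 𝔠) (σ : Mu → Mu) (x : Mu) :
    ∃ g : W → Mu, ∀ w, x < g w ∧ ∀ w', w' < w → σ (g w') < g w := by
  have key : ∀ (w : W) (r : ∀ w', w' < w → Mu), ∃ α, x < α ∧ ∀ w' (h : w' < w), σ (r w' h) < α := by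
    intro w r
    obtain ⟨α, h1, h2⟩ := Mu.exists_gt_insert (Set.range fun v : Set.Iio w => σ (r v.1 v.2))
      (Cardinal.mk_range_le.trans (hW w)) x
    exact ⟨α, h1, fun w' h => h2 _ ⟨⟨w', h⟩, rfl⟩⟩
  choose F hF using key
  refine ⟨(wellFounded_lt (α := W)).fix F, fun w => ?_⟩
  rw [WellFounded.fix_eq]
  exact hF w _

theorem Mu.exists_closed (η : Mu → Mu) (x : Mu) : ∃ δ, x < δ ∧ (∀ ρ, ρ < δ → η ρ < δ) ∧
    ∀ s : Set Mu, #s ≤ 𝔠 → ∃ ρ, ρ < δ ∧ ∀ β ∈ s, β < δ → β < ρ := by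
  have h0 : ∀ a : Mu, ∃ b, a < b ∧ η a < b ∧ ∀ ρ, ρ < a → η ρ < b := by
    intro a
    obtain ⟨b, h1, h2⟩ := Mu.exists_gt_insert (η '' Set.Iio a)
      (Cardinal.mk_image_le.trans (Mu.mk_Iio a)) (max a (η a))
    exact ⟨b, (le_max_left _ _).trans_lt h1, (le_max_right _ _).trans_lt h1,
      fun ρ h => h2 _ ⟨ρ, h, rfl⟩⟩
  choose σ hσ using h0
  obtain ⟨g, hg⟩ := Mu.exists_rec (W := (Order.succ (𝔠 : Cardinal.{0})).ord.ToType)
    (fun w => (mk_Iio_succ_le w).trans c_le_pow) σ x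
  have hne : {α : Mu | ∀ w, g w < α}.Nonempty := by
    obtain ⟨α, hα⟩ := Mu.exists_gt (Set.range g) (Cardinal.mk_range_le.trans (by
      rw [Cardinal.mk_ord_toType]
      exact Order.succ_le_of_lt (Cardinal.cantor _)))
    exact ⟨α, fun w => hα _ ⟨w, rfl⟩⟩
  have hδ : ∀ w, g w < wellFounded_lt.min _ hne := wellFounded_lt.min_mem _ hne
  have hlt : ∀ ρ, ρ < wellFounded_lt.min _ hne → ∃ w, ρ ≤ g w := by
    intro ρ h
    by_contra hc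
    push Not at hc
    exact wellFounded_lt.not_lt_min {α : Mu | ∀ w, g w < α} hc h
  have hW := exists_gt_succ (κ := 𝔠) aleph0_le_continuum
  refine ⟨wellFounded_lt.min _ hne, ?_, fun ρ h => ?_, fun s hs => ?_⟩
  · obtain ⟨w, -⟩ := hW ∅ (by simp)
    exact (hg w).1.trans (hδ w)
  · obtain ⟨w, hw⟩ := hlt ρ h
    obtain ⟨w', hw'⟩ := hW {w} (by simpa using one_le_aleph0.trans aleph0_le_continuum)
    have h1 := ((hg w').2 w (hw' w rfl)).trans (hδ w')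
    rcases hw.lt_or_eq with h2 | h2
    · exact ((hσ _).2.2 ρ h2).trans h1
    · exact h2 ▸ ((hσ _).2.1).trans h1
  · choose v hv using hlt
    obtain ⟨w, hw⟩ := hW (Set.range fun β : {β : s // β.1 < wellFounded_lt.min _ hne} =>
      v β.1.1 β.2) (Cardinal.mk_range_le.trans ((Cardinal.mk_subtype_le _).trans hs))
    refine ⟨g w, hδ w, fun β hβ h => ?_⟩
    exact (hv β h).trans_lt ((hσ _).1.trans ((hg w).2 _ (hw _ ⟨⟨⟨β, hβ⟩, h⟩, rfl⟩)))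

/-- pressing down -/
theorem Mu.press (a : Mu → Set Mu) (ha : ∀ α, #(a α) ≤ 𝔠) :
    ∃ ρ, ∀ η, ∃ α, η ≤ α ∧ ∀ β ∈ a α, β < α → β < ρ := by
  by_contra hc
  push Not at hc
  choose η hη using hc
  obtain ⟨δ, -, h1, h2⟩ := Mu.exists_closed η (Classical.arbitrary Mu)
  obtain ⟨ρ, h3, h4⟩ := h2 (a δ) (ha δ)
  obtain ⟨β, h5, h6, h7⟩ := hη ρ δ (h1 ρ h3).le
  exact absurd (h4 β h5 h6) (not_lt.2 h7)

/-- separated petals -/
theorem Mu.petals (a : Mu → Set Mu) (ha : ∀ α, #(a α) ≤ 𝔠) (U : Set Mu)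
    (hU : ∀ η, ∃ α ∈ U, η ≤ α) (x : Mu) : ∃ δ, x < δ ∧ ∀ s : Set Mu, #s ≤ 𝔠 →
      ∃ α ∈ U, α < δ ∧ (∀ β ∈ s, β < δ → β < α) ∧ ∀ β ∈ a α, β < δ := by
  choose u hu using hU
  have h0 : ∀ ρ : Mu, ∃ b, u ρ < b ∧ ∀ β ∈ a (u ρ), β < b := fun ρ =>
    Mu.exists_gt_insert _ ((ha _).trans c_le_pow) _
  choose η hη using h0
  obtain ⟨δ, h1, h2, h3⟩ := Mu.exists_closed η x
  refine ⟨δ, h1, fun s hs => ?_⟩
  obtain ⟨ρ, h4, h5⟩ := h3 s hs
  exact ⟨u ρ, (hu ρ).1, (hη ρ).1.trans (h2 ρ h4), fun β hβ h => (h5 β hβ h).trans_le (hu ρ).2,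
    fun β hβ => ((hη ρ).2 β hβ).trans (h2 ρ h4)⟩

/-- names (and tags) can be extended -/
theorem exists_nm {X : Type} (hX : #X ≤ 𝔠) (r : X → Lb → Prop)
    (h1 : ∀ x l l', r x l → r x l' → l = l') (h2 : ∀ x x' l, r x l → r x' l → x = x') :
    ∃ nm : X → Lb, Function.Injective nm ∧ ∀ x l, r x l → nm x = l := by
  classical
  let g : {x // ∃ l, r x l} → Lb := fun x => x.2.choose
  have hg : ∀ x, r x.1 (g x) := fun x => x.2.choose_spec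
  have hR : #(Set.range g) < #Lb := by
    rw [mk_Lb]
    exact (Cardinal.mk_range_le.trans ((Cardinal.mk_subtype_le _).trans hX)).trans_lt
      (Cardinal.cantor _)
  have hc : #X ≤ #((Set.range g)ᶜ : Set Lb) := by
    rw [Cardinal.mk_compl_of_infinite _ hR, mk_Lb]
    exact hX.trans c_le_pow
  obtain ⟨e⟩ := (Cardinal.le_def _ _).1 hc
  refine ⟨fun x => if h : ∃ l, r x l then g ⟨x, h⟩ else (e x).1, fun x y hxy => ?_,
    fun x l h => ?_⟩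
  · by_cases hx : ∃ l, r x l <;> by_cases hy : ∃ l, r y l <;>
      simp only [hx, hy, dif_pos, dif_neg, not_false_eq_true] at hxy
    · exact h2 x y _ (hg ⟨x, hx⟩) (hxy ▸ hg ⟨y, hy⟩)
    · exact absurd ⟨_, hxy⟩ (e y).2
    · exact absurd ⟨_, hxy.symm⟩ (e x).2
    · exact e.injective (Subtype.ext hxy)
  · have hx : ∃ l, r x l := ⟨l, h⟩
    simp only [hx, dif_pos]
    exact h1 x _ _ (hg ⟨x, hx⟩) h

theorem exists_nm' {X Y : Type} (hX : #X ≤ 𝔠) (φ : Y → X) (hφ : Function.Injective φ)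
    (ν : Y → Lb) (hν : Function.Injective ν) :
    ∃ nm : X → Lb, Function.Injective nm ∧ ∀ y, nm (φ y) = ν y := by
  obtain ⟨nm, h1, h2⟩ := exists_nm hX (fun x l => ∃ y, φ y = x ∧ ν y = l)
    (by rintro _ _ _ ⟨y, rfl, rfl⟩ ⟨y', h, rfl⟩; rw [hφ h])
    (by rintro _ _ _ ⟨y, rfl, rfl⟩ ⟨y', rfl, h⟩; rw [hν h])
  exact ⟨nm, h1, fun y => h2 _ _ ⟨y, rfl, rfl⟩⟩

end Pool.Agent.Lib.MP_f79ffc_lc.U
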