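import Pool.Agent.Lib.MP_f79ffc_lc.U.C.BB
import Pool.Agent.Lib.MP_f79ffc_lc.U.C.Mu
import Pool.Agent.Lib.MP_f79ffc_lc.U.L.LimK

/-!
Direct limits of continuous chains of conditions.
-/

namespace Pool.Agent.Lib.MP_f79ffc_lc.U

open Pool.Agent.Lib.MP_5d9fac_lc Cardinal

theorem Exn.key {q q' : Cond} (E : Exn q q') (i : q.I) : q'.key (E.f i) = q.key i :=
  Prod.ext (E.blk i) (E.tag i)

theorem Cond.e_surj (q : Cond) {i j : q.I} (h : i ≤ j) (h' : j ≤ i) :
    Function.Surjective (q.S.e h) := fun y => ⟨q.S.e h' y, by rw [q.S.e_trans, q.S.e_refl]⟩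

theorem Cond.nm_e (q : Cond) {i j : q.I} (h : i = j) (x : q.S.X i) :
    q.nm j (q.S.e h.le x) = q.nm i x := by
  subst h
  rw [q.S.e_refl]

/-- a chain of conditions -/
structure CCh (W : Type) [LinearOrder W] : Type 1 where
  q : W → Cond
  E : ∀ {a b : W}, a ≤ b → Exn (q a) (q b)

namespace CCh

variable {W : Type} [LinearOrder W] (c : CCh W)

/-- the index `i` of stage `a` represents `u` -/
def Rp : Option (Mu × Lb) → ∀ a : W, (c.q a).I → Prop
  | some k, a, i => (c.q a).key i = k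
  | none, a, i => i = (c.q a).top

/-- the indices of the limit -/
def LI : Type := {u : Option (Mu × Lb) // ∃ a i, c.Rp u a i}

variable {c}

theorem Rp.uniq {u : Option (Mu × Lb)} {a : W} {i j : (c.q a).I} (h : c.Rp u a i)
    (h' : c.Rp u a j) : i = j := by
  cases u with
  | none => exact Eq.trans h (Eq.symm h')
  | some k => exact (c.q a).key_injective (Eq.trans h (Eq.symm h'))

theorem Rp.up {u : Option (Mu × Lb)} {a b : W} (H : a ≤ b) {i : (c.q a).I} (h : c.Rp u a i) :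
    ∃ j, c.Rp u b j := by
  cases u with
  | none => exact ⟨_, rfl⟩
  | some k => exact ⟨(c.E H).f i, ((c.E H).key i).trans h⟩

theorem Rp.eq {u : Option (Mu × Lb)} (hu : u ≠ none) {a b : W} (E : Exn (c.q a) (c.q b))
    {i : (c.q a).I} {j : (c.q b).I} (h : c.Rp u a i) (h' : c.Rp u b j) : E.f i = j := by
  cases u with
  | none => exact (hu rfl).elim
  | some k => exact (c.q b).key_injective ((E.key i).trans (Eq.trans h (Eq.symm h')))

theorem Rp.le {u : Option (Mu × Lb)} {a b : W} (E : Exn (c.q a) (c.q b))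
    {i : (c.q a).I} {j : (c.q b).I} (h : c.Rp u a i) (h' : c.Rp u b j) : E.f i ≤ j := by
  cases u with
  | none =>
    obtain rfl : i = _ := h
    obtain rfl : j = _ := h'
    exact E.top_le
  | some k => exact (Rp.eq (Option.some_ne_none k) E h h').le

theorem Rp.le_iff {u v : Option (Mu × Lb)} (huv : u = none → v = none) {a b : W} (H : a ≤ b)
    {i k : (c.q a).I} {i' k' : (c.q b).I} (h1 : c.Rp u a i) (h2 : c.Rp u b i') (h3 : c.Rp v a k)
    (h4 : c.Rp v b k') : i ≤ k ↔ i' ≤ k' := by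
  by_cases hu : u = none
  · obtain rfl := huv hu
    subst hu
    rw [h1.uniq h3, h2.uniq h4]
    exact iff_of_true le_rfl le_rfl
  · obtain rfl := Rp.eq hu (c.E H) h1 h2
    cases v with
    | none =>
      obtain rfl : k = _ := h3
      obtain rfl : k' = _ := h4
      exact ((c.E H).cut i).symm
    | some w =>
      obtain rfl := Rp.eq (Option.some_ne_none w) (c.E H) h3 h4
      exact ⟨fun h => (c.E H).mono h, (c.E H).refl⟩

theorem exists_rp (u v : c.LI) : ∃ a i j, c.Rp u.1 a i ∧ c.Rp v.1 a j := by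
  obtain ⟨a, i, h⟩ := u.2
  obtain ⟨b, j, h'⟩ := v.2
  obtain ⟨i', h1⟩ := h.up (le_max_left a b)
  obtain ⟨j', h2⟩ := h'.up (le_max_right a b)
  exact ⟨_, i', j', h1, h2⟩

theorem Rp.le_any {u v : Option (Mu × Lb)} (huv : u = none → v = none) {a b : W}
    {i k : (c.q a).I} {i' k' : (c.q b).I} (h1 : c.Rp u a i) (h2 : c.Rp u b i') (h3 : c.Rp v a k)
    (h4 : c.Rp v b k') (h : i ≤ k) : i' ≤ k' := by
  rcases le_total a b with H | H
  · exact (Rp.le_iff huv H h1 h2 h3 h4).1 h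
  · exact (Rp.le_iff huv H h2 h1 h4 h3).2 h

instance : Preorder c.LI where
  le u v := (u.1 = none → v.1 = none) ∧ ∀ a i j, c.Rp u.1 a i → c.Rp v.1 a j → i ≤ j
  le_refl _ := ⟨id, fun _ _ _ h h' => (h.uniq h').le⟩
  le_trans u v w h h' := by
    refine ⟨fun e => h'.1 (h.1 e), fun a i k h1 h2 => ?_⟩
    obtain ⟨b, j, h3⟩ := v.2
    obtain ⟨i', h4⟩ := h1.up (le_max_left a b)
    obtain ⟨k', h5⟩ := h2.up (le_max_left a b)
    obtain ⟨j', h6⟩ := h3.up (le_max_right a b)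
    exact (Rp.le_iff (fun e => h'.1 (h.1 e)) (le_max_left a b) h1 h4 h2 h5).2
      ((h.2 _ _ _ h4 h6).trans (h'.2 _ _ _ h6 h5))

theorem le_of_rp {u v : c.LI} (huv : u.1 = none → v.1 = none) {a : W} {i j : (c.q a).I}
    (h1 : c.Rp u.1 a i) (h2 : c.Rp v.1 a j) (h : i ≤ j) : u ≤ v :=
  ⟨huv, fun _ _ _ h3 h4 => Rp.le_any huv h1 h3 h2 h4 h⟩

variable (c)

/-- the indices present at a stage -/
def A (a : W) : Set c.LI := {u | ∃ i, c.Rp u.1 a i}

/-- the representative at a stage -/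
noncomputable def rep (a : W) (u : c.A a) : (c.q a).I := Exists.choose u.2

theorem rep_spec (a : W) (u : c.A a) : c.Rp u.1.1 a (c.rep a u) := Exists.choose_spec u.2

theorem rep_mono (a : W) : Monotone (c.rep a) := fun u v h =>
  h.2 a _ _ (c.rep_spec a u) (c.rep_spec a v)

theorem A_mono {a b : W} (h : a ≤ b) : c.A a ⊆ c.A b := fun _ hu =>
  Exists.elim hu fun _ hi => hi.up h

theorem rep_le {a b : W} (h : a ≤ b) (u : c.A a) :
    (c.E h).f (c.rep a u) ≤ c.rep b (Set.inclusion (c.A_mono h) u) :=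
  Rp.le (c.E h) (c.rep_spec a u) (c.rep_spec b (Set.inclusion (c.A_mono h) u))

theorem rep_eq {a b : W} (h : a ≤ b) (u : c.A a) (hu : u.1.1 ≠ none) :
    (c.E h).f (c.rep a u) = c.rep b (Set.inclusion (c.A_mono h) u) :=
  Rp.eq hu (c.E h) (c.rep_spec a u) (c.rep_spec b (Set.inclusion (c.A_mono h) u))

theorem rep_alt {a b : W} (h : a ≤ b) {u v : c.A a} (huv : u ≤ v) :
    c.rep b (Set.inclusion (c.A_mono h) u) ≤ (c.E h).f (c.rep a u) ∨ v ≤ u := by
  by_cases hu : u.1.1 = none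
  · exact Or.inr (le_of_eq (Subtype.ext (Subtype.ext ((huv.1 hu).trans hu.symm))))
  · exact Or.inl (c.rep_eq h u hu).ge

/-- the chain of systems -/
noncomputable def ch : Chain W c.LI where
  A := c.A
  mono := c.A_mono
  all u := u.2
  S a := (c.q a).S.comap (c.rep a) (c.rep_mono a)
  m h := (c.E h).m.liftTop (c.rep_mono _) ((c.rep_mono _).comp (mono_incl (c.A_mono h)))
    (c.rep_le h) (c.rep_alt h)
  trans h h' u x := Exn.arr_arr (c.E h) (c.E h') (c.E (h.trans h')) (c.rep_le h u)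
    (c.rep_le h' (Set.inclusion (c.A_mono h) u)) (c.rep_le (h.trans h') u) x

theorem mv_eq {a b : W} (h : a ≤ b) {u : c.LI} (hu : u ∈ c.A a) (x : c.ch.X hu) :
    c.ch.mv h hu x = (c.E h).arr (c.rep_le h ⟨u, hu⟩) x := rfl

theorem mv_le {a b : W} (h : a ≤ b) {u : c.LI} (hu : u ∈ c.A a) (E : Exn (c.q a) (c.q b))
    {i : (c.q a).I} {z : (c.q b).I} (h1 : i ≤ c.rep a ⟨u, hu⟩)
    (h2 : c.rep b ⟨u, c.A_mono h hu⟩ ≤ z) (h3 : E.f i ≤ z) {x : (c.q a).S.X i}
    {y : (c.q b).S.X (c.rep b ⟨u, c.A_mono h hu⟩)} (H : E.arr h3 x ≤ (c.q b).S.e h2 y) :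
    c.ch.mv h hu ((c.q a).S.e h1 x) ≤ y := by
  refine (hm_le_iff ((c.q b).S.inj h2)).1 (le_trans (le_of_eq ?_) H)
  refine (congrArg ((c.q b).S.e h2) ((c.E h).arr_e h1 (c.rep_le h ⟨u, hu⟩) x)).trans ?_
  exact ((c.E h).e_arr _ h2 x).trans (Exn.arr_eq _ _ _ _ x)

theorem cont (hc : ∀ l, Lmt l → Dn (c.q '' Set.Iio l) (c.q l)) : c.ch.Cont := by
  rintro l hl u hu ⟨a, ha, hua⟩ y hy
  by_cases h0 : u.1 = none
  · have h1 : ∀ (b : W) (hb : u ∈ c.A b), c.rep b ⟨u, hb⟩ = (c.q b).top := fun b hb => by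
      have := c.rep_spec b ⟨u, hb⟩
      rw [show (⟨u, hb⟩ : c.A b).1.1 = none from h0] at this
      exact this
    obtain ⟨_, ⟨b, hb, rfl⟩, E, x, hx, H⟩ := (hc l hl).top ((c.q l).S.e (h1 l hu).le y)
      (hm_ne_bot ((c.q l).S.inj _) hy)
    have hub : u ∈ c.A b := ⟨(c.q b).top, by rw [h0]; rfl⟩
    exact ⟨b, hb, hub, (c.q b).S.e (h1 b hub).ge x, hm_ne_bot ((c.q b).S.inj _) hx,
      c.mv_le (le_of_lt hb) hub E (h1 b hub).ge (h1 l hu).le E.top_le H⟩
  · have h1 := c.rep_eq ha.le ⟨u, hua⟩ h0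
    obtain ⟨_, ⟨b, hb, rfl⟩, E, i, h, x, hx, H⟩ := (hc l hl).old _ ⟨a, ha, rfl⟩ (c.E ha.le)
      (c.rep a ⟨u, hua⟩) ((c.q l).S.e h1.ge y) (hm_ne_bot ((c.q l).S.inj _) hy)
    have h2 : c.Rp u.1 b i := by
      have h3 := c.rep_spec a ⟨u, hua⟩
      obtain ⟨k, hk⟩ := Option.ne_none_iff_exists'.1 h0
      rw [show (⟨u, hua⟩ : c.A a).1.1 = some k from hk] at h3
      rw [hk]
      exact (E.key i).symm.trans (by rw [h]; exact ((c.E ha.le).key _).trans h3)
    have hub : u ∈ c.A b := ⟨i, h2⟩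
    have h4 := h2.uniq (c.rep_spec b ⟨u, hub⟩)
    exact ⟨b, hb, hub, (c.q b).S.e h4.le x, hm_ne_bot ((c.q b).S.inj _) hx,
      c.mv_le (le_of_lt hb) hub E h4.le h1.ge h.le H⟩

/-- the index of the limit given by an index of a stage -/
def fi (a : W) (i : (c.q a).I) : c.LI := ⟨some ((c.q a).key i), a, i, rfl⟩

/-- the same as a member of the stage -/
def gi (a : W) (i : (c.q a).I) : c.A a := ⟨c.fi a i, i, rfl⟩

theorem rp_fi (a : W) (i : (c.q a).I) : c.Rp (c.fi a i).1 a i := rfl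

theorem eq_rep (a : W) (i : (c.q a).I) : i = c.rep a (c.gi a i) :=
  (c.rp_fi a i).uniq (c.rep_spec a (c.gi a i))

theorem fi_mono (a : W) : Monotone (c.fi a) := fun i j h =>
  le_of_rp (fun e => (Option.some_ne_none _ e).elim) (c.rp_fi a i) (c.rp_fi a j) h

theorem fi_eq {a : W} {i : (c.q a).I} {u : c.LI} (hu : u.1 ≠ none) (h : c.Rp u.1 a i) :
    c.fi a i = u := by
  obtain ⟨k, hk⟩ := Option.ne_none_iff_exists'.1 hu
  rw [hk] at h
  exact Subtype.ext (Eq.trans (congrArg some h) hk.symm)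

/-- blocks of the limit -/
def lblk (σ : Mu) (u : c.LI) : Mu := u.1.elim σ Prod.fst

/-- tags of the limit -/
def ltag (u : c.LI) : Lb := u.1.elim ∅ Prod.snd

/-- the new top index -/
def ltop (a : W) : c.LI := ⟨none, a, (c.q a).top, rfl⟩

theorem eq_ltop (a : W) {u : c.LI} (h : u.1 = none) : u = c.ltop a := Subtype.ext h

theorem lblk_rp (σ : Mu) {u : c.LI} (hu : u.1 ≠ none) {a : W} {i : (c.q a).I}
    (h : c.Rp u.1 a i) : c.lblk σ u = (c.q a).blk i := by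
  rw [← c.fi_eq hu h]
  rfl

theorem lblk_none (σ : Mu) {u : c.LI} (hu : u.1 = none) : c.lblk σ u = σ := by
  rw [lblk, hu]
  rfl

theorem lblk_lt {σ : Mu} (hσ : ∀ a, (c.q a).blk (c.q a).top < σ) {u : c.LI} (hu : u.1 ≠ none) :
    c.lblk σ u < σ := by
  obtain ⟨a, i, h⟩ := u.2
  rw [c.lblk_rp σ hu h]
  exact ((c.q a).blk_top i).trans_lt (hσ a)

theorem lblk_le {σ : Mu} (hσ : ∀ a, (c.q a).blk (c.q a).top < σ) (u : c.LI) : c.lblk σ u ≤ σ := by
  by_cases hu : u.1 = none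
  · exact (c.lblk_none σ hu).le
  · exact (c.lblk_lt hσ hu).le

theorem mk_LI (hW : #W ≤ 𝔠) (a₀ : W) : #c.LI ≤ 𝔠 := by
  have h1 : Function.Surjective fun z : Option (Σ a, (c.q a).I) =>
      z.elim (c.ltop a₀) fun s => c.fi s.1 s.2 := fun u => by
    by_cases hu : u.1 = none
    · exact ⟨none, (c.eq_ltop a₀ hu).symm⟩
    · obtain ⟨a, i, h⟩ := u.2
      exact ⟨some ⟨a, i⟩, c.fi_eq hu h⟩
  refine (mk_le_of_surjective h1).trans ?_
  rw [mk_option, mk_sigma]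
  refine add_le_of_le aleph0_le_continuum ?_ (one_le_aleph0.trans aleph0_le_continuum)
  refine (sum_le_sum _ _ fun a => (c.q a).cardI).trans ?_
  rw [sum_const']
  exact mul_le_of_le aleph0_le_continuum hW le_rfl

section
variable {L : Sys c.LI} {n : ∀ a, Mor (c.ch.S a) (L.comap _ (mono_val (c.ch.A a)))}

theorem names (H : c.ch.IsLim L n) (u : c.LI) (hX : #(L.X u) ≤ 𝔠) :
    ∃ nm : L.X u → Lb, Function.Injective nm ∧ (u.1 ≠ none → ∀ (a : W) (hu : u ∈ c.A a)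
      (x : c.ch.X hu), nm ((n a).ι ⟨u, hu⟩ x) = (c.q a).nm (c.rep a ⟨u, hu⟩) x) := by
  have key : u.1 ≠ none → ∀ (a b : W) (ha : u ∈ c.A a) (hb : u ∈ c.A b) (x : c.ch.X ha)
      (y : c.ch.X hb), (n a).ι ⟨u, ha⟩ x = (n b).ι ⟨u, hb⟩ y ↔
        (c.q a).nm (c.rep a ⟨u, ha⟩) x = (c.q b).nm (c.rep b ⟨u, hb⟩) y := by
    intro h0 a b ha hb x y
    have h1 : ∀ (a d : W) (h : a ≤ d) (ha : u ∈ c.A a) (x : c.ch.X ha),
        (c.q d).nm (c.rep d ⟨u, c.A_mono h ha⟩) (c.ch.mv h ha x) =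
          (c.q a).nm (c.rep a ⟨u, ha⟩) x := fun a d h ha x =>
      (c.E h).nm_arr (c.rep_eq h ⟨u, ha⟩ h0) x
    rw [← h1 a _ (le_max_left a b), ← h1 b _ (le_max_right a b),
      ← H.cmp (le_max_left a b) ⟨u, ha⟩ x, ← H.cmp (le_max_right a b) ⟨u, hb⟩ y]
    exact ((n (max a b)).inj ⟨u, c.A_mono (le_max_left a b) ha⟩).eq_iff.trans
      ((c.q (max a b)).nm_inj _).eq_iff.symm
  obtain ⟨nm, h1, h2⟩ := exists_nm hX (fun y l => u.1 ≠ none ∧ ∃ (a : W) (hu : u ∈ c.A a)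
    (x : c.ch.X hu), (n a).ι ⟨u, hu⟩ x = y ∧ (c.q a).nm (c.rep a ⟨u, hu⟩) x = l)
    (by
      rintro _ _ _ ⟨h0, a, ha, x, rfl, rfl⟩ ⟨-, b, hb, y, e, rfl⟩
      exact (key h0 a b ha hb x y).1 e.symm)
    (by
      rintro _ _ _ ⟨h0, a, ha, x, rfl, rfl⟩ ⟨-, b, hb, y, rfl, e⟩
      exact (key h0 a b ha hb x y).2 e.symm)
  exact ⟨nm, h1, fun h0 a hu x => h2 _ _ ⟨h0, a, hu, x, rfl, rfl⟩⟩

/-- the limit condition -/
noncomputable def lim (L : Sys c.LI) (hK : L.K) (hI : #c.LI ≤ 𝔠) (hX : ∀ u, #(L.X u) ≤ 𝔠) (a₀ : W)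
    {σ : Mu} (hσ : ∀ a, (c.q a).blk (c.q a).top < σ) (nm : ∀ u, L.X u → Lb)
    (hnm : ∀ u, Function.Injective (nm u)) : Cond where
  I := c.LI
  inst := inferInstance
  blk := c.lblk σ
  tag := c.ltag
  top := c.ltop a₀
  key_inj {u v} h1 h2 := by
    by_cases hu : u.1 = none
    · by_cases hv : v.1 = none
      · exact Subtype.ext (hu.trans hv.symm)
      · exact ((c.lblk_lt hσ hv).ne (h1.symm.trans (c.lblk_none σ hu))).elim
    · by_cases hv : v.1 = none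
      · exact ((c.lblk_lt hσ hu).ne (h1.trans (c.lblk_none σ hv))).elim
      · obtain ⟨k, hk⟩ := Option.ne_none_iff_exists'.1 hu
        obtain ⟨l, hl⟩ := Option.ne_none_iff_exists'.1 hv
        rw [lblk, lblk, hk, hl] at h1
        rw [ltag, ltag, hk, hl] at h2
        exact Subtype.ext (hk.trans ((congrArg some (Prod.ext h1 h2)).trans hl.symm))
  le_blk {u v} h := by
    by_cases hv : v.1 = none
    · rw [c.lblk_none σ hv]
      exact c.lblk_le hσ u
    · obtain ⟨a, i, j, h1, h2⟩ := exists_rp u v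
      rw [c.lblk_rp σ (fun e => hv (h.1 e)) h1, c.lblk_rp σ hv h2]
      exact (c.q a).le_blk (h.2 a i j h1 h2)
  blk_top u := c.lblk_le hσ u
  lt_iff {u v} h := by
    by_cases hv : v.1 = none
    · rw [c.eq_ltop a₀ hv]
    · have hu : u.1 ≠ none := fun e =>
        lt_asymm (c.lblk_lt hσ hv) ((c.lblk_none σ e).symm.trans_lt h)
      obtain ⟨a, i, j, h1, h2⟩ := exists_rp u v
      rw [c.lblk_rp σ hu h1, c.lblk_rp σ hv h2] at h
      have h3 : c.Rp (c.ltop a₀).1 a (c.q a).top := rfl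
      exact ⟨fun H => le_of_rp (fun _ => rfl) h1 h3 (((c.q a).lt_iff h).1 (H.2 a i j h1 h2)),
        fun H => le_of_rp (fun e => (hu e).elim) h1 h2 (((c.q a).lt_iff h).2 (H.2 a i _ h1 h3))⟩
  S := L
  K := hK
  cardI := hI
  cardX := hX
  nm := nm
  nm_inj := hnm

/-- the morphism from a stage to the limit -/
noncomputable def mor (n : ∀ a, Mor (c.ch.S a) (L.comap _ (mono_val (c.ch.A a)))) (a : W) :
    Mor (c.q a).S (L.comap (c.fi a) (c.fi_mono a)) :=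
  (Mor.up (S1 := (c.q a).S) (g0 := id) (g1 := fun i => c.rep a (c.gi a i)) (h0 := monotone_id)
    (h1 := (c.rep_mono a).comp (g := c.rep a) (f := c.gi a) (c.fi_mono a))
    (fun i => (c.eq_rep a i).le) fun {i _} _ => Or.inl (c.eq_rep a i).ge).comp
    ((n a).comap (c.gi a) (c.fi_mono a))

theorem mor_ι (a : W) (i : (c.q a).I) (x : (c.q a).S.X i) :
    (c.mor n a).ι i x = (n a).ι (c.gi a i) ((c.q a).S.e (c.eq_rep a i).le x) := rfl

theorem mor_keeps (H : c.ch.IsLim L n) (a : W) {i j : (c.q a).I} (h : i ≤ j)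
    (hb : (c.q a).blk i = (c.q a).blk j) : (c.mor n a).Keeps h := by
  refine Mor.Keeps.comp (Mor.keeps_of_surj _ h
    ((c.q a).e_surj (c.eq_rep a j).le (c.eq_rep a j).ge)) (Mor.Keeps.comap ?_)
  refine H.keeps (u := c.gi a i) (v := c.gi a j) (c.fi_mono a h) fun b hab => ?_
  refine Mor.Keeps.comp (Mor.Keeps.comap ((c.E hab).keeps _ ?_)) (Mor.keeps_of_surj _ _
    ((c.q b).e_surj (c.rep_le hab (c.gi a j))
      (c.rep_eq hab (c.gi a j) (Option.some_ne_none _)).ge))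
  rw [← c.eq_rep, ← c.eq_rep, hb]

end

end CCh

theorem Cond.lim {W : Type} [LinearOrder W] [WellFoundedLT W] [Nonempty W] (hW : #W ≤ 𝔠)
    (q : W → Cond) (hq : ∀ a b, a ≤ b → Nonempty (Exn (q a) (q b)))
    (hc : ∀ l, Lmt l → Dn (q '' Set.Iio l) (q l)) :
    ∃ r, (∀ a, Nonempty (Exn (q a) r)) ∧ Dn (Set.range q) r := by
  let c : CCh W := ⟨q, fun h => (hq _ _ h).some⟩
  obtain ⟨a₀⟩ := ‹Nonempty W›
  obtain ⟨L, n, H⟩ := c.ch.exists_lim
  have hK : L.K := H.K (fun a => (q a).K.comap _ _) (c.cont hc)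
  have hX : ∀ u, #(L.X u) ≤ 𝔠 := fun u =>
    H.card (hK.ccc u) continuum_power_aleph0.le hW fun a v => (q a).cardX _
  obtain ⟨σ, hσ⟩ := Mu.exists_gt' hW fun a => (q a).blk (q a).top
  choose nm hnm hnm' using fun u => c.names H u (hX u)
  let r : Cond := c.lim L hK (c.mk_LI hW a₀) hX a₀ hσ nm hnm
  let E : ∀ a, Exn (q a) r := fun a =>
    { f := c.fi a
      mono := c.fi_mono a
      refl := fun {i j} h => h.2 a i j rfl rfl
      blk := fun _ => rfl
      tag := fun _ => rfl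
      onto := fun u i h => by
        have hu : u.1 ≠ none := fun e =>
          (((q a).blk_top i).trans_lt (hσ a)).ne (h.symm.trans (c.lblk_none σ e))
        obtain ⟨b, j, h1⟩ := u.2
        obtain ⟨j', h2⟩ := h1.up (le_max_right a b)
        obtain ⟨k, hk⟩ := (c.E (le_max_left a b)).onto j' i ((c.lblk_rp σ hu h2).symm.trans h)
        refine ⟨k, Eq.trans ?_ (c.fi_eq hu h2)⟩
        rw [← hk]
        exact Subtype.ext (congrArg some ((c.E (le_max_left a b)).key k).symm)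
      cut := fun i => ⟨fun h => h.2 a i _ rfl rfl,
        fun h => CCh.le_of_rp (a := a) (fun _ => rfl) rfl rfl h⟩
      m := c.mor n a
      nm := fun i x => (hnm' (c.fi a i) (Option.some_ne_none _) a (c.gi a i).2 _).trans
        ((q a).nm_e (c.eq_rep a i) x)
      keeps := fun h hb => c.mor_keeps H a h hb }
  refine ⟨r, fun a => ⟨E a⟩, ?_, ?_⟩
  · rintro _ ⟨a, rfl⟩ E₀ i₀ y hy
    have hu : (E₀.f i₀).1 ≠ none := by
      rw [E₀.f_eq (E a)]
      exact Option.some_ne_none _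
    obtain ⟨b, hb, x, hx, h⟩ := H.dense (E₀.f i₀) y hy
    have h1 : (E b).f (c.rep b ⟨_, hb⟩) = E₀.f i₀ := c.fi_eq hu (c.rep_spec b ⟨_, hb⟩)
    refine ⟨_, ⟨b, rfl⟩, E b, _, h1, x, hx, le_trans (le_of_eq ?_) h⟩
    exact hnm _ (((E b).nm_arr h1 x).trans (hnm' _ hu b hb x).symm)
  · intro y hy
    obtain ⟨b, hb, x, hx, h⟩ := H.dense (c.ltop a₀) y hy
    have h1 : c.rep b ⟨_, hb⟩ = (q b).top := c.rep_spec b ⟨_, hb⟩
    refine ⟨_, ⟨b, rfl⟩, E b, (q b).S.e h1.le x, hm_ne_bot ((q b).S.inj _) hx,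
      le_trans (le_of_eq ?_) h⟩
    refine ((n b).comm (i := c.gi b (q b).top) (j := ⟨_, hb⟩) (E b).top_le _).trans
      (congrArg _ ?_)
    exact ((q b).S.e_trans _ _ _).trans (((q b).S.e_trans _ _ _).trans ((q b).S.e_refl _ x))

end Pool.Agent.Lib.MP_f79ffc_lc.U
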