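import Pool.Agent.Lib.MP_f79ffc_lc.U.C.BB
import Pool.Agent.Lib.MP_f79ffc_lc.U.C.Lim

/-!
Long chains of conditions and the capture of dense sets and of elements of the big algebra.
-/

namespace Pool.Agent.Lib.MP_f79ffc_lc.U

open Pool.Agent.Lib.MP_5d9fac_lc Cardinal

/-- recursion with choice along a well order -/
theorem exists_wf_rec {W : Type} [LinearOrder W] [WellFoundedLT W] {Z : Type*} (z₀ : Z)
    (P : W → (W → Z) → Z → Prop)
    (hloc : ∀ w f g z, (∀ a, a < w → f a = g a) → P w f z → P w g z)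
    (h : ∀ w f, (∀ a, a < w → P a f (f a)) → ∃ z, P w f z) : ∃ f : W → Z, ∀ w, P w f (f w) := by
  classical
  let ex : ∀ w : W, (∀ a, a < w → Z) → W → Z := fun w r a => if h : a < w then r a h else z₀
  let F : ∀ w : W, (∀ a, a < w → Z) → Z := fun w r =>
    if h : ∃ z, P w (ex w r) z then h.choose else z₀
  refine ⟨(wellFounded_lt (α := W)).fix F, fun w => ?_⟩
  induction w using WellFoundedLT.induction with
  | ind w ih =>
    obtain ⟨z, hz⟩ := h w _ ih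
    have he : ∀ a, a < w → (wellFounded_lt (α := W)).fix F a =
        ex w (fun a _ => (wellFounded_lt (α := W)).fix F a) a := fun a ha => by
      simp only [ex, dif_pos ha]
    have h1 : ∃ z, P w (ex w fun a _ => (wellFounded_lt (α := W)).fix F a) z :=
      ⟨z, hloc w _ _ z he hz⟩
    have h2 : (wellFounded_lt (α := W)).fix F w = h1.choose := by
      rw [WellFounded.fix_eq]
      exact dif_pos h1
    rw [h2]
    exact hloc w _ _ _ (fun a ha => (he a ha).symm) h1.choose_spec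

theorem Exn.ne_trans {q q' q'' : Cond} (h : Nonempty (Exn q q')) (h' : Nonempty (Exn q' q'')) :
    Nonempty (Exn q q'') := ⟨h.some.trans h'.some⟩

/-- a continuous chain on a lower set has an upper bound -/
theorem exists_chain_bound (q : Cond) {W : Type} [LinearOrder W] [WellFoundedLT W] (hW : #W ≤ 𝔠)
    (r s : W → Cond) (A : Set W) (hA : IsLowerSet A)
    (h0 : ∀ w ∈ A, Nonempty (Exn q (r w))) (h1 : ∀ w ∈ A, Nonempty (Exn (r w) (s w)))
    (h2 : ∀ w ∈ A, ∀ a, a < w → Nonempty (Exn (s a) (r w)))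
    (h3 : ∀ w ∈ A, Lmt w → Dn (r '' Set.Iio w) (r w)) :
    ∃ q', Nonempty (Exn q q') ∧ (∀ a ∈ A, Nonempty (Exn (s a) q')) ∧
      (A.Nonempty → (∀ a ∈ A, ∃ b ∈ A, a < b) → Dn (r '' A) q') := by
  rcases A.eq_empty_or_nonempty with rfl | ⟨a₀, ha₀⟩
  · exact ⟨q, ⟨Exn.rfl' q⟩, fun _ h => h.elim, fun h => h.ne_empty.irrefl.elim⟩
  by_cases hm : ∀ a ∈ A, ∃ b ∈ A, a < b
  · have : Nonempty A := ⟨⟨a₀, ha₀⟩⟩
    obtain ⟨q', h4, h5⟩ := Cond.lim (W := A) ((mk_subtype_le _).trans hW) (fun a => r a.1)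
      (fun a b hab => by
        rcases (show a.1 ≤ b.1 from hab).lt_or_eq with h | h
        · exact Exn.ne_trans (h1 _ a.2) (h2 _ b.2 _ h)
        · exact h ▸ ⟨Exn.rfl' _⟩)
      (fun l hl => by
        have e : (fun a : A => r a.1) '' Set.Iio l = r '' Set.Iio l.1 := by
          ext x
          constructor
          · rintro ⟨a, ha, rfl⟩
            exact ⟨a.1, ha, rfl⟩
          · rintro ⟨a, ha, rfl⟩
            exact ⟨⟨a, hA (le_of_lt ha) l.2⟩, ha, rfl⟩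
        rw [e]
        obtain ⟨⟨a, ha⟩, hl'⟩ := hl
        refine h3 _ l.2 ⟨⟨a.1, ha⟩, fun b hb => ?_⟩
        obtain ⟨c, h6, h7⟩ := hl' ⟨b, hA hb.le l.2⟩ hb
        exact ⟨c.1, h6, h7⟩)
    refine ⟨q', Exn.ne_trans (h0 _ ha₀) (h4 ⟨a₀, ha₀⟩), fun a ha => ?_, fun _ _ => ?_⟩
    · obtain ⟨b, hb, hab⟩ := hm a ha
      exact Exn.ne_trans (h2 b hb a hab) (h4 ⟨b, hb⟩)
    · rwa [Set.image_eq_range]
  · have hm' := hm
    push Not at hm'
    obtain ⟨m, hmA, hmax⟩ := hm'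
    refine ⟨s m, Exn.ne_trans (h0 m hmA) (h1 m hmA), fun a ha => ?_, fun _ h => absurd h hm⟩
    rcases (hmax a ha).lt_or_eq with h | h
    · exact Exn.ne_trans (h2 m hmA a h) (h1 m hmA)
    · exact h ▸ ⟨Exn.rfl' _⟩

theorem exists_chain (q : Cond) {W : Type} [LinearOrder W] [WellFoundedLT W] (hW : #W ≤ 𝔠)
    (St : W → Cond → Cond → Prop)
    (h : ∀ w q₁, Nonempty (Exn q q₁) → ∃ q₂, Nonempty (Exn q₁ q₂) ∧ St w q₁ q₂) :
    ∃ (r s : W → Cond) (q' : Cond), Nonempty (Exn q q') ∧ (∀ w, Nonempty (Exn q (r w)) ∧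
      Nonempty (Exn (r w) (s w)) ∧ St w (r w) (s w) ∧ Nonempty (Exn (s w) q')) ∧
      ∀ w w', w < w' → Nonempty (Exn (s w) (r w')) := by
  obtain ⟨f, hf⟩ := exists_wf_rec (W := W) (q, q)
    (fun w f z => Nonempty (Exn q z.1) ∧ Nonempty (Exn z.1 z.2) ∧ St w z.1 z.2 ∧
      (∀ a, a < w → Nonempty (Exn (f a).2 z.1)) ∧
      (Lmt w → Dn ((fun a => (f a).1) '' Set.Iio w) z.1))
    (fun w f g z hfg H => ⟨H.1, H.2.1, H.2.2.1, fun a ha => hfg a ha ▸ H.2.2.2.1 a ha, fun hl => by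
      have e : (fun a => (f a).1) '' Set.Iio w = (fun a => (g a).1) '' Set.Iio w :=
        Set.image_congr fun a ha => congrArg Prod.fst (hfg a ha)
      exact e ▸ H.2.2.2.2 hl⟩)
    (fun w f ih => by
      obtain ⟨q₁, h1, h2, h3⟩ := exists_chain_bound q hW (fun a => (f a).1) (fun a => (f a).2)
        (Set.Iio w) (isLowerSet_Iio w) (fun a ha => (ih a ha).1) (fun a ha => (ih a ha).2.1)
        (fun a ha => (ih a ha).2.2.2.1) (fun a ha => (ih a ha).2.2.2.2)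
      obtain ⟨q₂, h4, h5⟩ := h w q₁ h1
      exact ⟨(q₁, q₂), h1, h4, h5, h2, fun hl => h3 hl.1 fun a ha => by
        obtain ⟨b, h6, h7⟩ := hl.2 a ha
        exact ⟨b, h7, h6⟩⟩)
  obtain ⟨q', h1, h2, -⟩ := exists_chain_bound q hW (fun a => (f a).1) (fun a => (f a).2)
    Set.univ isLowerSet_univ (fun a _ => (hf a).1) (fun a _ => (hf a).2.1)
    (fun a _ => (hf a).2.2.2.1) (fun a _ => (hf a).2.2.2.2)
  exact ⟨fun a => (f a).1, fun a => (f a).2, q', h1,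
    fun w => ⟨(hf w).1, (hf w).2.1, (hf w).2.2.1, h2 w trivial⟩,
    fun w w' hw => (hf w').2.2.2.1 w hw⟩

theorem exists_ext_all (q : Cond) {ι : Type} (hι : #ι ≤ 𝔠) (P : ι → Cond → Prop)
    (ho : ∀ k q₁ q₂, Nonempty (Exn q₁ q₂) → P k q₁ → P k q₂)
    (hd : ∀ k q₁, Nonempty (Exn q q₁) → ∃ q₂, Nonempty (Exn q₁ q₂) ∧ P k q₂) :
    ∃ q', Nonempty (Exn q q') ∧ ∀ k, P k q' := by
  obtain ⟨_, _⟩ := exists_wellFoundedLT ι
  obtain ⟨r, s, q', h1, h2, -⟩ := exists_chain q hι (fun k _ q₂ => P k q₂) hd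
  exact ⟨q', h1, fun k => ho k _ _ (h2 k).2.2.2 (h2 k).2.2.1⟩

/-- the part of the algebra of `r` that is captured by `D` -/
noncomputable def capt (D : Set BB) (r : Cond) : r.B :=
  ⨆ c : {c : r.B // ∃ d ∈ D, jq r c ≤ d}, c.1

theorem tr_capt (D : Set BB) {r r' : Cond} (E : Exn r r') : E.tr (capt D r) ≤ capt D r' := by
  rw [capt, map_iSup]
  refine iSup_le fun c => ?_
  obtain ⟨d, hd, h⟩ := c.2
  exact le_iSup (fun c : {c : r'.B // ∃ d ∈ D, jq r' c ≤ d} => c.1)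
    ⟨E.tr c.1, d, hd, (jq_tr_le E le_rfl).trans h⟩

theorem exists_le_capt (q : Cond) (p : q.B) (D : Set BB) (hD : jq q p ≤ sSup D) :
    ∃ (q' : Cond) (E : Exn q q'), E.tr p ≤ capt D q' := by
  by_contra hc
  push Not at hc
  obtain ⟨r, s, q', -, h2, h3⟩ := exists_chain q (W := (Order.succ (ℵ₀ : Cardinal.{0})).ord.ToType)
    (by
      rw [mk_ord_toType]
      exact Order.succ_le_of_lt aleph0_lt_continuum)
    (fun _ q₁ q₂ => ∃ E : Exn q₁ q₂, capt D q₂ ⊓ (E.tr (capt D q₁))ᶜ ≠ ⊥)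
    (fun _ q₁ ⟨E⟩ => by
      have h1 : E.tr p ⊓ (capt D q₁)ᶜ ≠ ⊥ := fun h0 =>
        hc q₁ E (by rwa [← sdiff_eq, sdiff_eq_bot_iff] at h0)
      have h2 : jq q₁ (E.tr p ⊓ (capt D q₁)ᶜ) ≤ ⨆ d : D, d.1 := by
        rw [← sSup_eq_iSup']
        exact (jq_tr_le E inf_le_left).trans hD
      obtain ⟨d, hd⟩ := exists_inf_ne_bot_of_le (jq_eq_bot.not.2 h1) h2
      obtain ⟨q₂, E', p', h3, h4, h5⟩ := exists_ext_le hd
      refine ⟨q₂, ⟨E'⟩, E', ne_bot_of_le (le_inf ?_ ?_) h3⟩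
      · exact le_iSup (fun c : {c : q₂.B // ∃ d ∈ D, jq q₂ c ≤ d} => c.1) ⟨p', d.1, d.2, h5⟩
      · rw [← hm_compl]
        exact h4.trans (hm_mono _ inf_le_right))
  choose E hE using fun w => (h2 w).2.2.1
  have F := fun w => (h2 w).2.2.2.some
  have key : ∀ w w', w < w' → (F w).tr (capt D (s w) ⊓ ((E w).tr (capt D (r w)))ᶜ) ⊓
      (F w').tr (capt D (s w') ⊓ ((E w').tr (capt D (r w')))ᶜ) = ⊥ := by
    intro w w' hw
    obtain ⟨G⟩ := h3 w w' hw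
    have e1 : (F w).tr (capt D (s w)) ≤ (F w').tr ((E w').tr (capt D (r w'))) := by
      rw [← Exn.tr_tr G ((E w').trans (F w')) (F w), ← Exn.tr_tr (E w') (F w')]
      exact hm_mono _ (hm_mono _ (tr_capt D G))
    rw [← le_bot_iff, ← inf_compl_eq_bot (a := (F w').tr ((E w').tr (capt D (r w'))))]
    refine inf_le_inf ((hm_mono (F w).tr inf_le_left).trans e1) ?_
    rw [← hm_compl (F w').tr]
    exact hm_mono (F w').tr inf_le_right
  have h4 := q'.ccc _ (fun w => (F w).tr (capt D (s w) ⊓ ((E w).tr (capt D (r w)))ᶜ))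
    fun w w' hne => by
      rcases lt_or_gt_of_ne hne with h | h
      · exact key w w' h
      · rw [inf_comm]
        exact key w' w h
  rw [Set.eq_univ_of_forall (s := {w | (F w).tr (capt D (s w) ⊓
    ((E w).tr (capt D (r w)))ᶜ) ≠ ⊥}) fun w => (F w).tr_ne_bot (hE w),
    ← le_aleph0_iff_set_countable, mk_univ, mk_ord_toType] at h4
  exact absurd h4 (not_le.2 (Order.lt_succ _))

/-- CAPTURE, dense sets: countably many members of `D k` are predense in `B q'` -/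
theorem capture (q : Cond) {ι : Type} (hι : #ι ≤ 𝔠) (p : ι → q.B) (D : ι → Set BB)
    (hD : ∀ k, jq q (p k) ≤ sSup (D k)) : ∃ (q' : Cond) (E : Exn q q'), ∀ k,
      ∃ C : Set q'.B, C.Countable ∧ E.tr (p k) ≤ sSup C ∧ ∀ c ∈ C, ∃ d ∈ D k, jq q' c ≤ d := by
  obtain ⟨q', ⟨E⟩, h⟩ := exists_ext_all q hι
    (fun k r => ∃ E : Exn q r, E.tr (p k) ≤ capt (D k) r)
    (fun k q₁ q₂ ⟨G⟩ ⟨E, h⟩ => ⟨E.trans G, by
      rw [← Exn.tr_tr E G]
      exact (hm_mono _ h).trans (tr_capt _ G)⟩)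
    (fun k q₁ ⟨E⟩ => by
      obtain ⟨q₂, G, h⟩ := exists_le_capt q₁ (E.tr (p k)) (D k)
        ((jq_tr_le E le_rfl).trans (hD k))
      exact ⟨q₂, ⟨G⟩, E.trans G, by rwa [← Exn.tr_tr E G]⟩)
  refine ⟨q', E, fun k => ?_⟩
  obtain ⟨E', h1⟩ := h k
  obtain ⟨C, h2, h3⟩ := exists_countable_iSup q'.ccc
    (fun c : {c : q'.B // ∃ d ∈ D k, jq q' c ≤ d} => c.1)
  refine ⟨Subtype.val '' C, h2.image _, ?_, ?_⟩
  · rw [E.tr_eq E']
    exact h1.trans (h3.trans (iSup_le fun c => le_sSup ⟨c.1, c.2, rfl⟩))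
  · rintro _ ⟨c, -, rfl⟩
    exact c.2

/-- CAPTURE, elements -/
theorem capture_fun (q : Cond) {ι : Type} (hι : #ι ≤ 𝔠) (x : ι → BB) :
    ∃ (q' : Cond) (_ : Exn q q') (y : ι → q'.B), ∀ k, jq q' (y k) = jq q' ⊤ ⊓ x k := by
  obtain ⟨q', E, h⟩ := capture q hι (fun _ => ⊤) (fun k => {x k, (x k)ᶜ})
    fun k => by rw [sSup_pair, sup_compl_eq_top]; exact le_top
  refine ⟨q', E, fun k => capt {x k} q', fun k => le_antisymm (le_inf (jq_mono le_top) ?_) ?_⟩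
  · show jq q' (capt {x k} q') ≤ _
    rw [capt, jq_iSup]
    refine iSup_le fun c => ?_
    obtain ⟨d, hd, h1⟩ := c.2
    exact hd ▸ h1
  · obtain ⟨C, -, h1, h2⟩ := h k
    rw [map_top, sSup_eq_iSup'] at h1
    refine (inf_le_inf_right _ (jq_mono h1)).trans ?_
    rw [jq_iSup, iSup_inf_eq]
    refine iSup_le fun c => ?_
    obtain ⟨d, hd | hd, h3⟩ := h2 c.1 c.2
    · exact inf_le_left.trans (jq_mono (le_iSup
        (fun c : {c : q'.B // ∃ d ∈ ({x k} : Set BB), jq q' c ≤ d} => c.1) ⟨c.1, d, hd, h3⟩))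
    · refine (inf_le_inf_right _ h3).trans ?_
      rw [show d = (x k)ᶜ from hd, compl_inf_eq_bot]
      exact bot_le

end Pool.Agent.Lib.MP_f79ffc_lc.U
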