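import Pool.Agent.Lib.MP_f79ffc_lc.U.SysL

/-!
Conditions of the outer forcing: small systems of algebras arranged in blocks, with names.
-/

namespace Pool.Agent.Lib.MP_f79ffc_lc.U

open Pool.Agent.Lib.MP_5d9fac_lc Cardinal

/-- names for indices and for elements -/
abbrev Lb : Type := Set ℝ

/-- the blocks -/
def Mu : Type := (Order.succ (2 ^ 𝔠 : Cardinal.{0})).ord.ToType

noncomputable instance : LinearOrder Mu :=
  inferInstanceAs (LinearOrder (Order.succ (2 ^ 𝔠 : Cardinal.{0})).ord.ToType)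

instance : WellFoundedLT Mu :=
  inferInstanceAs (WellFoundedLT (Order.succ (2 ^ 𝔠 : Cardinal.{0})).ord.ToType)

/-- a condition; the index `i` is a cut when `i ≤ top` -/
structure Cond : Type 1 where
  I : Type
  inst : Preorder I
  blk : I → Mu
  tag : I → Lb
  top : I
  key_inj : ∀ {i j : I}, blk i = blk j → tag i = tag j → i = j
  le_blk : ∀ {i j : I}, i ≤ j → blk i ≤ blk j
  blk_top : ∀ i, blk i ≤ blk top
  lt_iff : ∀ {i j : I}, blk i < blk j → (i ≤ j ↔ i ≤ top)
  S : Sys I
  K : S.K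
  cardI : #I ≤ 𝔠
  cardX : ∀ i, #(S.X i) ≤ 𝔠
  nm : ∀ i, S.X i → Lb
  nm_inj : ∀ i, Function.Injective (nm i)

attribute [instance] Cond.inst

/-- the algebra of a condition -/
abbrev Cond.B (q : Cond) : Type := q.S.X q.top

/-- `q'` extends `q` -/
structure Exn (q q' : Cond) : Type where
  f : q.I → q'.I
  mono : Monotone f
  refl : ∀ {i j : q.I}, f i ≤ f j → i ≤ j
  blk : ∀ i, q'.blk (f i) = q.blk i
  tag : ∀ i, q'.tag (f i) = q.tag i
  onto : ∀ u i, q'.blk u = q.blk i → ∃ j, f j = u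
  cut : ∀ i, f i ≤ q'.top ↔ i ≤ q.top
  m : Mor q.S (q'.S.comap f mono)
  nm : ∀ i x, q'.nm (f i) (m.ι i x) = q.nm i x
  keeps : ∀ {i j : q.I} (h : i ≤ j), q.blk i = q.blk j → m.Keeps h

namespace Exn

variable {q q' : Cond} (E : Exn q q')

/-- the arrow from an old index to an index above its image -/
def arr {i : q.I} {u : q'.I} (h : E.f i ≤ u) : Hm (q.S.X i) (q'.S.X u) :=
  (q'.S.e h).comp (E.m.ι i)

theorem top_le : E.f q.top ≤ q'.top := (E.cut q.top).2 le_rfl

/-- the arrow between the algebras of the conditions -/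
def tr : Hm q.B q'.B := E.arr E.top_le

end Exn

/-- an isomorphism of conditions that forgets blocks and tags -/
structure Iso (q q' : Cond) : Type where
  f : q.I ≃o q'.I
  top : f q.top = q'.top
  m : Mor q.S (q'.S.comap f f.monotone)
  surj : ∀ i, Function.Surjective (m.ι i)
  nm : ∀ i x, q'.nm (f i) (m.ι i x) = q.nm i x
  keeps : ∀ {i j : q.I} (h : i ≤ j), m.Keeps h

/-- `r` is a direct limit of the conditions in `Q` -/
structure Dn (Q : Set Cond) (r : Cond) : Prop where
  old : ∀ q₀ ∈ Q, ∀ (E₀ : Exn q₀ r) (i₀ : q₀.I) (y : r.S.X (E₀.f i₀)), y ≠ ⊥ →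
    ∃ q ∈ Q, ∃ (E : Exn q r) (i : q.I) (h : E.f i = E₀.f i₀) (x : q.S.X i),
      x ≠ ⊥ ∧ E.arr h.le x ≤ y
  top : ∀ y : r.B, y ≠ ⊥ → ∃ q ∈ Q, ∃ (E : Exn q r) (x : q.B), x ≠ ⊥ ∧ E.tr x ≤ y

/-- limit points of a linear order -/
def Lmt {W : Type} [LinearOrder W] (l : W) : Prop :=
  (∃ a, a < l) ∧ ∀ a, a < l → ∃ b, a < b ∧ b < l

/-- the index set with one more index placed above `i₀` -/
def Ad (I : Type) (_i₀ : I) : Type := Option I

/-- the order of `Ad` -/
def Ad.le {I : Type} [Preorder I] {i₀ : I} : Ad I i₀ → Ad I i₀ → Prop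
  | some i, some j => i ≤ j
  | some i, none => i ≤ i₀
  | none, some _ => False
  | none, none => True

instance {I : Type} [Preorder I] {i₀ : I} : Preorder (Ad I i₀) where
  le := Ad.le
  le_refl
    | some i => le_refl i
    | none => trivial
  le_trans
    | some _, some _, some _, h, h' => le_trans (α := I) h h'
    | some _, some _, none, h, h' => le_trans (α := I) h h'
    | some _, none, none, h, _ => h
    | none, none, none, _, _ => trivial
    | _, none, some _, _, h' => h'.elim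
    | none, some _, _, h, _ => h.elim

end Pool.Agent.Lib.MP_f79ffc_lc.U
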